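import Mathlib

/-!
# The capacity of forbidden difference patterns: definitions and existence of the limit
-/

set_option autoImplicit false

namespace Pool.Agent.H693R2.Cap

open Filter

/-- The difference of two bits, as a letter `-`, `0` or `+`. -/
def bitDiff : Bool → Bool → SignType
  | true, false => 1
  | false, true => -1
  | true, true => 0
  | false, false => 0

/-- The coordinatewise difference `u - v` of two binary words. -/
def diff (u v : List Bool) : List SignType := List.zipWith bitDiff u v

/-- The set `W` of binary words avoids the set `D` of forbidden difference patterns: for distinct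
`u, v` in `W`, no word of `D` is a factor of `u - v`. -/
def Avoids (D : List (List SignType)) (W : Finset (List Bool)) : Prop :=
  ∀ u ∈ W, ∀ v ∈ W, u ≠ v → ∀ d ∈ D, ¬ d <:+: diff u v

/-- `δ_t(D)`: the largest size of a set of binary words of length `t` that avoids `D`. -/
noncomputable def delta (D : List (List SignType)) (t : ℕ) : ℕ :=
  sSup {k : ℕ | ∃ W : Finset (List Bool), (∀ w ∈ W, w.length = t) ∧ Avoids D W ∧ W.card = k}

/-- The capacity `cap(D)`, the limit of `log₂ δ_t(D) / t`. -/
noncomputable def cap (D : List (List SignType)) : ℝ :=
  limUnder atTop (fun t : ℕ => Real.logb 2 (delta D t) / t)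

theorem card_le_two_pow {W : Finset (List Bool)} {t : ℕ} (h : ∀ w ∈ W, w.length = t) :
    W.card ≤ 2 ^ t := by
  classical
  have : W ⊆ (Finset.univ : Finset (List.Vector Bool t)).image (fun v => v.toList) := by
    intro w hw
    rw [Finset.mem_image]
    exact ⟨⟨w, h w hw⟩, Finset.mem_univ _, rfl⟩
  refine (Finset.card_le_card this).trans (Finset.card_image_le.trans ?_)
  simp [Finset.card_univ, card_vector]

theorem bdd (D : List (List SignType)) (t : ℕ) :
    BddAbove {k : ℕ | ∃ W : Finset (List Bool), (∀ w ∈ W, w.length = t) ∧ Avoids D W ∧
      W.card = k} := by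
  refine ⟨2 ^ t, ?_⟩
  rintro k ⟨W, h1, _, rfl⟩
  exact card_le_two_pow h1

theorem card_le_delta {D : List (List SignType)} {W : Finset (List Bool)} {t : ℕ}
    (h1 : ∀ w ∈ W, w.length = t) (h2 : Avoids D W) : W.card ≤ delta D t :=
  le_csSup (bdd D t) ⟨W, h1, h2, rfl⟩

theorem exists_delta (D : List (List SignType)) (t : ℕ) :
    ∃ W : Finset (List Bool), (∀ w ∈ W, w.length = t) ∧ Avoids D W ∧ W.card = delta D t := by
  have hne : {k : ℕ | ∃ W : Finset (List Bool), (∀ w ∈ W, w.length = t) ∧ Avoids D W ∧
      W.card = k}.Nonempty := ⟨0, ∅, by simp, by simp [Avoids], rfl⟩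
  exact Nat.sSup_mem hne (bdd D t)

theorem delta_le {D : List (List SignType)} {t B : ℕ}
    (h : ∀ W : Finset (List Bool), (∀ w ∈ W, w.length = t) → Avoids D W → W.card ≤ B) :
    delta D t ≤ B := by
  obtain ⟨W, h1, h2, h3⟩ := exists_delta D t
  rw [← h3]
  exact h W h1 h2

theorem one_le_delta (D : List (List SignType)) (t : ℕ) : 1 ≤ delta D t := by
  have := card_le_delta (D := D) (W := {List.replicate t false}) (t := t) (by simp) (by
    intro u hu v hv huv
    rw [Finset.mem_singleton] at hu hv
    exact absurd (hu.trans hv.symm) huv)
  simpa using this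

theorem delta_le_two_pow (D : List (List SignType)) (t : ℕ) : delta D t ≤ 2 ^ t :=
  delta_le (fun _ h _ => card_le_two_pow h)

theorem diff_append {u v u' v' : List Bool} (h : u.length = v.length) :
    diff (u ++ u') (v ++ v') = diff u v ++ diff u' v' := by
  unfold diff
  exact List.zipWith_append h

theorem length_diff (u v : List Bool) : (diff u v).length = min u.length v.length := by
  simp [diff]

theorem delta_add (D : List (List SignType)) (s t : ℕ) :
    delta D (s + t) ≤ delta D s * delta D t := by
  classical
  refine delta_le fun W hW hD => ?_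
  -- group by prefixes of length `s`
  have hpre : (W.image (fun w => w.take s)).card ≤ delta D s := by
    apply card_le_delta
    · intro w hw
      rw [Finset.mem_image] at hw
      obtain ⟨v, hv, rfl⟩ := hw
      rw [List.length_take, hW v hv]
      omega
    · intro u hu v hv huv d hd hdf
      rw [Finset.mem_image] at hu hv
      obtain ⟨u', hu', rfl⟩ := hu
      obtain ⟨v', hv', rfl⟩ := hv
      have hne : u' ≠ v' := by
        rintro rfl
        exact huv rfl
      apply hD u' hu' v' hv' hne d hd
      have e : diff u' v' = diff (u'.take s) (v'.take s) ++ diff (u'.drop s) (v'.drop s) := by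
        rw [← diff_append, List.take_append_drop, List.take_append_drop]
        rw [List.length_take, List.length_take, hW u' hu', hW v' hv']
      rw [e]
      exact hdf.trans (List.prefix_append _ _).isInfix
  have hfib : ∀ y ∈ W.image (fun w => w.take s),
      (W.filter (fun w => w.take s = y)).card ≤ delta D t := by
    intro y _
    have hinj : Set.InjOn (fun w : List Bool => w.drop s)
        (W.filter (fun w => w.take s = y) : Finset (List Bool)) := by
      intro u hu v hv huv
      simp only [Finset.coe_filter, Set.mem_ofPred_eq] at hu hv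
      simp only at huv
      rw [← List.take_append_drop s u, ← List.take_append_drop s v, hu.2, hv.2, huv]
    rw [← Finset.card_image_of_injOn hinj]
    apply card_le_delta
    · intro w hw
      rw [Finset.mem_image] at hw
      obtain ⟨v, hv, rfl⟩ := hw
      rw [Finset.mem_filter] at hv
      rw [List.length_drop, hW v hv.1]
      omega
    · intro u hu v hv huv d hd hdf
      rw [Finset.mem_image] at hu hv
      obtain ⟨u', hu', rfl⟩ := hu
      obtain ⟨v', hv', rfl⟩ := hv
      rw [Finset.mem_filter] at hu' hv'
      have hne : u' ≠ v' := by
        rintro rfl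
        exact huv rfl
      apply hD u' hu'.1 v' hv'.1 hne d hd
      have e : diff u' v' = diff (u'.take s) (v'.take s) ++ diff (u'.drop s) (v'.drop s) := by
        rw [← diff_append, List.take_append_drop, List.take_append_drop]
        rw [List.length_take, List.length_take, hW u' hu'.1, hW v' hv'.1]
      rw [e]
      exact hdf.trans (List.suffix_append _ _).isInfix
  calc W.card ≤ delta D t * (W.image (fun w => w.take s)).card :=
        Finset.card_le_mul_card_image _ _ hfib
    _ ≤ delta D t * delta D s := Nat.mul_le_mul_left _ hpre
    _ = delta D s * delta D t := mul_comm _ _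

theorem logb_delta_nonneg (D : List (List SignType)) (t : ℕ) :
    0 ≤ Real.logb 2 (delta D t) :=
  Real.logb_nonneg (by norm_num) (by exact_mod_cast one_le_delta D t)

theorem subadditive (D : List (List SignType)) :
    Subadditive (fun t : ℕ => Real.logb 2 (delta D t)) := by
  intro s t
  have h1 : (0 : ℝ) < delta D s := by exact_mod_cast one_le_delta D s
  have h2 : (0 : ℝ) < delta D t := by exact_mod_cast one_le_delta D t
  rw [← Real.logb_mul h1.ne' h2.ne']
  apply Real.logb_le_logb_of_le (by norm_num)
  · exact_mod_cast one_le_delta D (s + t)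
  · exact_mod_cast delta_add D s t

theorem bddBelow (D : List (List SignType)) :
    BddBelow (Set.range fun t : ℕ => Real.logb 2 (delta D t) / t) := by
  refine ⟨0, ?_⟩
  rintro _ ⟨t, rfl⟩
  exact div_nonneg (logb_delta_nonneg D t) (Nat.cast_nonneg t)

/-- The limit defining the capacity exists. -/
theorem tendsto_cap (D : List (List SignType)) :
    Tendsto (fun t : ℕ => Real.logb 2 (delta D t) / t) atTop (nhds (cap D)) := by
  have h := (subadditive D).tendsto_lim (bddBelow D)
  unfold cap
  rw [h.limUnder_eq]
  exact h

/-- The capacity lies in `[0, 1]`. -/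
theorem cap_mem (D : List (List SignType)) : 0 ≤ cap D ∧ cap D ≤ 1 := by
  constructor
  · exact ge_of_tendsto' (tendsto_cap D) fun t =>
      div_nonneg (logb_delta_nonneg D t) (Nat.cast_nonneg t)
  · refine le_of_tendsto' (tendsto_cap D) fun t => ?_
    rcases Nat.eq_zero_or_pos t with rfl | ht
    · simp
    · rw [div_le_one (by exact_mod_cast ht)]
      have h1 : (delta D t : ℝ) ≤ 2 ^ (t : ℝ) := by
        rw [Real.rpow_natCast]
        exact_mod_cast delta_le_two_pow D t
      have h2 := Real.logb_le_logb_of_le (b := 2) (by norm_num)
        (by exact_mod_cast one_le_delta D t) h1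
      rwa [Real.logb_rpow (by norm_num) (by norm_num)] at h2

end Pool.Agent.H693R2.Cap
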