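import Pool.Agent.H693R2.Cap.Pats

/-!
# The lower bound for the capacity
-/

set_option autoImplicit false

namespace Pool.Agent.H693R2.Cap

open Filter

/-- The code word given by a sequence of symbols. -/
def codeword (P T : ℕ) (h s : ℕ → ℕ) : List Bool :=
  (List.range (P * T)).map (fun t => decide (t % P = h (s (t / P))))

theorem length_codeword (P T : ℕ) (h s : ℕ → ℕ) : (codeword P T h s).length = P * T := by
  simp [codeword]

theorem bit_codeword {P T : ℕ} {h s : ℕ → ℕ} {i : ℕ} (hi : i < P * T) :
    bit (codeword P T h s) i = decide (i % P = h (s (i / P))) := by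
  unfold bit codeword
  rw [List.getD_eq_getElem _ _ (by simpa using hi)]
  simp

theorem good_codeword {R G P T K : ℕ} {al : ℕ → Bool} {h s s' : ℕ → ℕ} (hRG : G ≤ R)
    (hP : P = R + G) (hG : ∀ c, c < K → h c < G)
    (hal : ∀ c c', c < K → c' < K → h c < h c' → al (h c' - h c) = true)
    (hs : ∀ i, s i < K) (hs' : ∀ i, s' i < K) :
    Good R al (P * T) (bit (codeword P T h s)) (bit (codeword P T h s')) := by
  have hP0 : 0 < P := by
    have := hG _ (hs 0)
    omega
  have key : ∀ x, bit (codeword P T h s) x ≠ bit (codeword P T h s') x → x < P * T ∧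
      h (s (x / P)) ≠ h (s' (x / P)) ∧ (x % P = h (s (x / P)) ∨ x % P = h (s' (x / P))) := by
    intro x hx
    have hlt : x < P * T := by
      by_contra hcon
      apply hx
      rw [bit_of_le (by rw [length_codeword]; omega), bit_of_le (by rw [length_codeword]; omega)]
    rw [bit_codeword hlt, bit_codeword hlt] at hx
    refine ⟨hlt, ?_, ?_⟩
    · intro heq
      rw [heq] at hx
      exact hx rfl
    · by_contra hcon
      push Not at hcon
      apply hx
      rw [decide_eq_false hcon.1, decide_eq_false hcon.2]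
  have hsame : ∀ x y, x < y → y < x + R → bit (codeword P T h s) x ≠ bit (codeword P T h s') x →
      bit (codeword P T h s) y ≠ bit (codeword P T h s') y → x / P = y / P := by
    intro x y hxy hyR hx hy
    obtain ⟨h1, h2, h3⟩ := key x hx
    have hxG : x % P < G := by
      rcases h3 with h3 | h3
      · rw [h3]; exact hG _ (hs _)
      · rw [h3]; exact hG _ (hs' _)
    have h4 : x / P ≤ y / P := Nat.div_le_div_right hxy.le
    by_contra hne
    have h5 : x / P + 1 ≤ y / P := by omega
    have h6 := Nat.mul_le_mul_left P h5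
    have h7 := Nat.div_add_mod x P
    have h8 := Nat.div_add_mod y P
    rw [Nat.mul_add] at h6
    omega
  refine ⟨?_, ?_, ?_, ?_⟩
  · intro x y hxy hy hyR hx hy' _ heq
    obtain ⟨h1, h2, h3⟩ := key x hx
    obtain ⟨g1, g2, g3⟩ := key y hy'
    have hw := hsame x y hxy hyR hx hy'
    rw [bit_codeword h1, bit_codeword g1, hw, decide_eq_decide] at heq
    rw [hw] at h2 h3
    have h7 := Nat.div_add_mod x P
    have h8 := Nat.div_add_mod y P
    rw [hw] at h7
    rcases h3 with h3 | h3 <;> rcases g3 with g3 | g3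
    · omega
    · exact h2 ((heq.2 h3).symm.trans g3)
    · exact h2 ((heq.1 g3).symm.trans h3)
    · omega
  · intro x y hxy hy hyR hx hy' _
    obtain ⟨h1, h2, h3⟩ := key x hx
    obtain ⟨g1, g2, g3⟩ := key y hy'
    have hw := hsame x y hxy hyR hx hy'
    rw [hw] at h2 h3
    have h7 := Nat.div_add_mod x P
    have h8 := Nat.div_add_mod y P
    rw [hw] at h7
    rcases h3 with h3 | h3 <;> rcases g3 with g3 | g3
    · omega
    · have := hal (s (y / P)) (s' (y / P)) (hs _) (hs' _) (by omega)
      rw [← this]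
      congr 1
      omega
    · have := hal (s' (y / P)) (s (y / P)) (hs' _) (hs _) (by omega)
      rw [← this]
      congr 1
      omega
    · omega
  · intro x y z hxy hyz hz hzR hx hy hz' _ _
    obtain ⟨h1, h2, h3⟩ := key x hx
    obtain ⟨g1, g2, g3⟩ := key y hy
    obtain ⟨k1, k2, k3⟩ := key z hz'
    have hw := hsame x y hxy (by omega) hx hy
    have hw' := hsame y z hyz (by omega) hy hz'
    have h7 := Nat.div_add_mod x P
    have h8 := Nat.div_add_mod y P
    have h9 := Nat.div_add_mod z P
    rw [hw] at h7 h3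
    rw [← hw'] at h9 k3
    omega
  · intro x _ _ hx
    obtain ⟨h1, h2, h3⟩ := key x hx
    have h7 := Nat.div_add_mod x P
    have h8 : x / P < T := Nat.div_lt_of_lt_mul h1
    have h9 : P * (x / P + 1) ≤ P * T := Nat.mul_le_mul_left P h8
    rw [Nat.mul_add] at h9
    have hG1 := hG _ (hs (x / P))
    have hG2 := hG _ (hs' (x / P))
    have hdm : ∀ r, r < P → (P * (x / P) + r) / P = x / P ∧ (P * (x / P) + r) % P = r := by
      intro r hr
      constructor
      · rw [Nat.mul_add_div hP0, Nat.div_eq_of_lt hr, Nat.add_zero]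
      · rw [Nat.mul_add_mod, Nat.mod_eq_of_lt hr]
    rcases h3 with h3 | h3
    · obtain ⟨e1, e2⟩ := hdm (h (s' (x / P))) (by omega)
      refine ⟨P * (x / P) + h (s' (x / P)), by omega, by omega, by omega, ?_⟩
      rw [bit_codeword (by omega), bit_codeword (by omega), e1, e2]
      intro hcon
      rw [decide_eq_decide] at hcon
      exact h2 (hcon.2 rfl).symm
    · obtain ⟨e1, e2⟩ := hdm (h (s (x / P))) (by omega)
      refine ⟨P * (x / P) + h (s (x / P)), by omega, by omega, by omega, ?_⟩
      rw [bit_codeword (by omega), bit_codeword (by omega), e1, e2]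
      intro hcon
      rw [decide_eq_decide] at hcon
      exact h2 (hcon.1 rfl)

/-- The sequence of symbols given by a function on `Fin T`. -/
def symb {T K : ℕ} (σ : Fin T → Fin K) (i : ℕ) : ℕ := if hi : i < T then σ ⟨i, hi⟩ else 0

theorem symb_lt {T K : ℕ} (hK : 0 < K) (σ : Fin T → Fin K) (i : ℕ) : symb σ i < K := by
  unfold symb
  split_ifs
  · exact (σ _).2
  · exact hK

theorem delta_lower {R G P K : ℕ} {al : ℕ → Bool} {h : ℕ → ℕ} (hR : 1 ≤ R) (hK : 0 < K)
    (hRG : G ≤ R) (hP : P = R + G) (hG : ∀ c, c < K → h c < G)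
    (hinj : ∀ c c', c < K → c' < K → c ≠ c' → h c ≠ h c')
    (hal : ∀ c c', c < K → c' < K → h c < h c' → al (h c' - h c) = true) (T : ℕ) :
    K ^ T ≤ delta (pats R al) (P * T) := by
  classical
  have hP0 : 0 < P := by omega
  have hinj' : Function.Injective (fun σ : Fin T → Fin K => codeword P T h (symb σ)) := by
    intro σ σ' hσ
    simp only at hσ
    funext w
    by_contra hne
    have hne' : (σ w : ℕ) ≠ σ' w := fun h' => hne (Fin.ext h')
    have hGw := hG _ (σ w).2
    have hlt : P * w + h (σ w) < P * T := by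
      have := Nat.mul_le_mul_left P w.2
      rw [Nat.mul_succ] at this
      omega
    have hb : bit (codeword P T h (symb σ)) (P * w + h (σ w)) =
        bit (codeword P T h (symb σ')) (P * w + h (σ w)) := by rw [hσ]
    have e1 : (P * w + h (σ w)) / P = w := by
      rw [Nat.mul_add_div hP0, Nat.div_eq_of_lt (by omega), Nat.add_zero]
    have e2 : (P * w + h (σ w)) % P = h (σ w) := by
      rw [Nat.mul_add_mod, Nat.mod_eq_of_lt (by omega)]
    have e3 : symb σ w = σ w := by
      unfold symb
      rw [dif_pos w.2]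
    have e4 : symb σ' w = σ' w := by
      unfold symb
      rw [dif_pos w.2]
    rw [bit_codeword hlt, bit_codeword hlt, e1, e2, e3, e4, decide_eq_decide] at hb
    exact hinj _ _ (σ w).2 (σ' w).2 hne' (hb.1 rfl)
  have hcard : (Finset.univ.image (fun σ : Fin T → Fin K => codeword P T h (symb σ))).card =
      K ^ T := by
    rw [Finset.card_image_of_injective _ hinj', Finset.card_univ, Fintype.card_fun,
      Fintype.card_fin, Fintype.card_fin]
  rw [← hcard]
  have hW : ∀ w ∈ Finset.univ.image (fun σ : Fin T → Fin K => codeword P T h (symb σ)),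
      w.length = P * T := by
    intro w hw
    rw [Finset.mem_image] at hw
    obtain ⟨σ, _, rfl⟩ := hw
    exact length_codeword _ _ _ _
  apply card_le_delta hW
  rw [avoids_iff hR hW]
  intro u hu v hv _
  rw [Finset.mem_image] at hu hv
  obtain ⟨σ, _, rfl⟩ := hu
  obtain ⟨σ', _, rfl⟩ := hv
  exact good_codeword hRG hP hG hal (symb_lt hK σ) (symb_lt hK σ')

theorem cap_ge_of_delta {D : List (List SignType)} {P K : ℕ} (hP : 0 < P) (hK : 0 < K)
    (h : ∀ T, K ^ T ≤ delta D (P * T)) : Real.logb 2 K / P ≤ cap D := by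
  have hlim : Tendsto (fun T : ℕ => Real.logb 2 (delta D (P * T)) / ((P * T : ℕ) : ℝ)) atTop
      (nhds (cap D)) := by
    refine (tendsto_cap D).comp (tendsto_atTop_mono (fun T => ?_) tendsto_id)
    exact Nat.le_mul_of_pos_left _ hP
  refine ge_of_tendsto hlim ?_
  filter_upwards [eventually_gt_atTop 0] with T hT
  have hT' : (0 : ℝ) < T := by exact_mod_cast hT
  have hP' : (0 : ℝ) < P := by exact_mod_cast hP
  have hK' : (0 : ℝ) < K := by exact_mod_cast hK
  have h1 : ((K : ℝ)) ^ T ≤ (delta D (P * T) : ℝ) := by exact_mod_cast h T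
  have h2 := Real.logb_le_logb_of_le (b := 2) (by norm_num) (by positivity) h1
  rw [Real.logb_pow] at h2
  push_cast
  rw [div_le_div_iff₀ hP' (by positivity)]
  calc Real.logb 2 K * (P * T) = (T * Real.logb 2 K) * P := by ring
    _ ≤ Real.logb 2 (delta D (P * T)) * P := mul_le_mul_of_nonneg_right h2 hP'.le

end Pool.Agent.H693R2.Cap
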