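import Mathlib

/-!
# A ruler with distinct triple sums, and sets with allowed differences
-/

set_option autoImplicit false

namespace Pool.Agent.H693R2.Cap

/-- The ruler `i + B i² + B² i³`, `B = 3n² + 1`. -/
def ruler (n i : ℕ) : ℕ := i + (3 * (n * n) + 1) * (i * i) +
  (3 * (n * n) + 1) * (3 * (n * n) + 1) * (i * i * i)

/-- A strict upper bound for the marks of the ruler. -/
def rulerBound (n : ℕ) : ℕ := ruler n n + 1

theorem ruler_lt {n i : ℕ} (h : i < n) : ruler n i < rulerBound n := by
  unfold rulerBound ruler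
  have h1 : i * i ≤ n * n := Nat.mul_le_mul h.le h.le
  have h2 : i * i * i ≤ n * n * n := Nat.mul_le_mul h1 h.le
  have h3 := Nat.mul_le_mul_left (3 * (n * n) + 1) h1
  have h4 := Nat.mul_le_mul_left ((3 * (n * n) + 1) * (3 * (n * n) + 1)) h2
  omega

/-- Equality of unordered triples. -/
def Same3 (a b c d e f : ℕ) : Prop :=
  (a = d ∧ b = e ∧ c = f) ∨ (a = d ∧ b = f ∧ c = e) ∨ (a = e ∧ b = d ∧ c = f) ∨
  (a = e ∧ b = f ∧ c = d) ∨ (a = f ∧ b = d ∧ c = e) ∨ (a = f ∧ b = e ∧ c = d)

theorem pair_of_sums {b c e f : ℤ} (h1 : b + c = e + f) (h2 : b * b + c * c = e * e + f * f) :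
    (b = e ∧ c = f) ∨ (b = f ∧ c = e) := by
  have h : (b - e) * (b - f) = 0 := by
    have hc : c = e + f - b := by linarith
    subst hc
    nlinarith
  rcases mul_eq_zero.1 h with h | h
  · left
    constructor <;> linarith
  · right
    constructor <;> linarith

theorem triple_of_sums {a b c d e f : ℤ} (h1 : a + b + c = d + e + f)
    (h2 : a * a + b * b + c * c = d * d + e * e + f * f)
    (h3 : a * a * a + b * b * b + c * c * c = d * d * d + e * e * e + f * f * f) :
    (a = d ∧ b = e ∧ c = f) ∨ (a = d ∧ b = f ∧ c = e) ∨ (a = e ∧ b = d ∧ c = f) ∨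
    (a = e ∧ b = f ∧ c = d) ∨ (a = f ∧ b = d ∧ c = e) ∨ (a = f ∧ b = e ∧ c = d) := by
  have h : 6 * ((a - d) * (a - e) * (a - f)) = 0 := by
    have hc : c = d + e + f - a - b := by linarith
    subst hc
    have e2 : 2 * (a * b + a * (d + e + f - a - b) + b * (d + e + f - a - b)) =
        2 * (d * e + d * f + e * f) := by nlinarith
    have e2' : a * b + a * (d + e + f - a - b) + b * (d + e + f - a - b) =
        d * e + d * f + e * f := by linarith
    have e3 : 3 * (a * b * (d + e + f - a - b)) = 3 * (d * e * f) := by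
      have hp : ∀ x y z : ℤ, x * x * x + y * y * y + z * z * z =
          (x + y + z) * (x + y + z) * (x + y + z) - 3 * ((x + y + z) * (x * y + x * z + y * z)) +
            3 * (x * y * z) := by intro x y z; ring
      rw [hp a b, hp d e f, e2', show a + b + (d + e + f - a - b) = d + e + f by ring] at h3
      linarith
    have e4 : (a - a) * (a - b) * (a - (d + e + f - a - b)) = 0 := by ring
    have e5 : (a - d) * (a - e) * (a - f) = a * a * a - a * a * (d + e + f) +
        a * (d * e + d * f + e * f) - d * e * f := by ring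
    rw [e5, ← e2']
    have e6 : d * e * f = a * b * (d + e + f - a - b) := by linarith
    rw [e6]
    ring
  have h' : (a - d) * (a - e) * (a - f) = 0 := by linarith
  rcases mul_eq_zero.1 h' with h' | h'
  · rcases mul_eq_zero.1 h' with h' | h'
    · have had : a = d := by linarith
      subst had
      rcases pair_of_sums (b := b) (c := c) (e := e) (f := f) (by linarith) (by linarith) with h | h
      · exact Or.inl ⟨rfl, h.1, h.2⟩
      · exact Or.inr (Or.inl ⟨rfl, h.1, h.2⟩)
    · have had : a = e := by linarith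
      subst had
      rcases pair_of_sums (b := b) (c := c) (e := d) (f := f) (by linarith) (by linarith) with h | h
      · exact Or.inr (Or.inr (Or.inl ⟨rfl, h.1, h.2⟩))
      · exact Or.inr (Or.inr (Or.inr (Or.inl ⟨rfl, h.1, h.2⟩)))
  · have had : a = f := by linarith
    subst had
    rcases pair_of_sums (b := b) (c := c) (e := d) (f := e) (by linarith) (by linarith) with h | h
    · exact Or.inr (Or.inr (Or.inr (Or.inr (Or.inl ⟨rfl, h.1, h.2⟩))))
    · exact Or.inr (Or.inr (Or.inr (Or.inr (Or.inr ⟨rfl, h.1, h.2⟩))))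

theorem digits_eq {B x y z x' y' z' : ℕ} (hx : x < B) (hy : y < B) (hx' : x' < B) (hy' : y' < B)
    (h : x + B * y + B * B * z = x' + B * y' + B * B * z') : x = x' ∧ y = y' ∧ z = z' := by
  have e1 : x + B * y + B * B * z = x + B * (y + B * z) := by ring
  have e2 : x' + B * y' + B * B * z' = x' + B * (y' + B * z') := by ring
  rw [e1, e2] at h
  have hB : 0 < B := by omega
  have h1 : x = x' := by
    have := congrArg (fun m => m % B) h
    simpa [Nat.add_mul_mod_self_left, Nat.mod_eq_of_lt hx, Nat.mod_eq_of_lt hx'] using this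
  subst h1
  have h2 : y + B * z = y' + B * z' := Nat.eq_of_mul_eq_mul_left hB (by omega)
  have h3 : y = y' := by
    have := congrArg (fun m => m % B) h2
    simpa [Nat.add_mul_mod_self_left, Nat.mod_eq_of_lt hy, Nat.mod_eq_of_lt hy'] using this
  subst h3
  exact ⟨rfl, rfl, Nat.eq_of_mul_eq_mul_left hB (by omega)⟩

theorem ruler_same {n a b c d e f : ℕ} (ha : a < n) (hb : b < n) (hc : c < n) (hd : d < n)
    (he : e < n) (hf : f < n) (h : ruler n a + ruler n b + ruler n c =
      ruler n d + ruler n e + ruler n f) : Same3 a b c d e f := by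
  have hn : 0 < n := by omega
  have sq : ∀ x, x < n → x * x ≤ n * n := fun x hx => Nat.mul_le_mul hx.le hx.le
  have ln : ∀ x, x < n → x ≤ n * n := fun x hx => by nlinarith
  unfold ruler at h
  set B := 3 * (n * n) + 1 with hB
  have key : (a + b + c) + B * (a * a + b * b + c * c) + B * B * (a * a * a + b * b * b + c * c * c)
      = (d + e + f) + B * (d * d + e * e + f * f) + B * B * (d * d * d + e * e * e + f * f * f) := by
    linarith
  have := ln a ha; have := ln b hb; have := ln c hc; have := ln d hd; have := ln e he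
  have := ln f hf
  have := sq a ha; have := sq b hb; have := sq c hc; have := sq d hd; have := sq e he
  have := sq f hf
  obtain ⟨h1, h2, h3⟩ := digits_eq (by omega) (by omega) (by omega) (by omega) key
  have := triple_of_sums (a := a) (b := b) (c := c) (d := d) (e := e) (f := f)
    (by exact_mod_cast h1) (by exact_mod_cast h2) (by exact_mod_cast h3)
  unfold Same3
  exact_mod_cast this

/-- The triple sum property, in the integers. -/
theorem ruler_same_int {n a b c d e f : ℕ} (ha : a < n) (hb : b < n) (hc : c < n) (hd : d < n)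
    (he : e < n) (hf : f < n) (h : (ruler n a : ℤ) + ruler n b + ruler n c =
      ruler n d + ruler n e + ruler n f) : Same3 a b c d e f :=
  ruler_same ha hb hc hd he hf (by exact_mod_cast h)

/-- A set of integers all of whose differences are differences of adjacent marks comes from a
clique (Lemma B). -/
theorem exists_vertices {n : ℕ} {NA : ℕ → ℕ → Prop} (hlt : ∀ i j, NA i j → i < n ∧ j < n)
    (hsymm : ∀ i j, NA i j → NA j i) (hirr : ∀ i, ¬ NA i i) (Z : Finset ℤ)
    (hn : 0 < n)
    (hZ : ∀ z ∈ Z, ∀ z' ∈ Z, z ≠ z' → ∃ i j, NA i j ∧ z' - z = (ruler n j : ℤ) - ruler n i) :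
    ∃ v : ℤ → ℕ, (∀ z ∈ Z, v z < n) ∧ ∀ z ∈ Z, ∀ z' ∈ Z, z ≠ z' → NA (v z) (v z') := by
  classical
  by_cases hcard : ∃ a ∈ Z, ∃ b ∈ Z, a ≠ b
  swap
  · push Not at hcard
    exact ⟨fun _ => 0, fun z hz => hn, fun z hz z' hz' hne => absurd (hcard z hz z' hz') hne⟩
  obtain ⟨a, ha, b, hb, hab⟩ := hcard
  obtain ⟨i, j, hij, hab'⟩ := hZ a ha b hb hab
  have hin := (hlt i j hij).1
  have hjn := (hlt i j hij).2
  have hijne : i ≠ j := fun h => hirr i (by rw [← h] at hij; exact hij)
  -- the type of the other elements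
  have htype : ∀ c ∈ Z, c ≠ a → c ≠ b →
      (∃ l, NA l i ∧ NA l j ∧ c = a - ruler n i + ruler n l) ∨
      (∃ l, NA l i ∧ NA l j ∧ c = a + ruler n j - ruler n l) := by
    intro c hc hca hcb
    obtain ⟨i1, j1, h1, e1⟩ := hZ a ha c hc hca.symm
    obtain ⟨i2, j2, h2, e2⟩ := hZ b hb c hc hcb.symm
    have hs := ruler_same_int (a := j1) (b := i2) (c := i) (d := i1) (e := j2) (f := j)
      (hlt _ _ h1).2 (hlt _ _ h2).1 hin (hlt _ _ h1).1 (hlt _ _ h2).2 hjn (by linarith)
    have hne1 : i1 ≠ j1 := fun h => hirr i1 (by rw [← h] at h1; exact h1)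
    have hne2 : i2 ≠ j2 := fun h => hirr i2 (by rw [← h] at h2; exact h2)
    unfold Same3 at hs
    rcases hs with ⟨h, _, _⟩ | ⟨h, _, _⟩ | ⟨h, h', h''⟩ | ⟨h, h', h''⟩ | ⟨h, h', h''⟩ | ⟨h, h', h''⟩
    · exact absurd h.symm hne1
    · exact absurd h.symm hne1
    · exact absurd h'' hijne
    · -- j1 = j2, i2 = j, i = i1
      subst h h' h''
      left
      exact ⟨j1, hsymm _ _ h1, hsymm _ _ h2, by linarith⟩
    · -- j1 = j, i2 = i1, i = j2
      subst h h' h''
      right
      exact ⟨i2, h2, h1, by linarith⟩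
    · exact absurd h' hne2
  -- type I and type II exclude each other
  have hexcl : ∀ c ∈ Z, ∀ d ∈ Z, ∀ l l', NA l i → NA l j → NA l' i → NA l' j →
      c = a - ruler n i + ruler n l → d = a + ruler n j - ruler n l' → False := by
    intro c hc d hd l l' h1 h2 h3 h4 e1 e2
    have n1 : l ≠ i := fun h => hirr i (by rw [h] at h1; exact h1)
    have n2 : l ≠ j := fun h => hirr j (by rw [h] at h2; exact h2)
    have n3 : l' ≠ i := fun h => hirr i (by rw [h] at h3; exact h3)
    have n4 : l' ≠ j := fun h => hirr j (by rw [h] at h4; exact h4)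
    by_cases hcd : c = d
    · have hs := ruler_same_int (n := n) (a := l) (b := l') (c := i) (d := i) (e := j) (f := i)
        (hlt _ _ h1).1 (hlt _ _ h3).1 hin hin hjn hin (by linarith)
      unfold Same3 at hs
      omega
    · obtain ⟨i', j', h5, e3⟩ := hZ c hc d hd hcd
      have hs := ruler_same_int (n := n) (a := i) (b := j) (c := i') (d := l) (e := l') (f := j')
        hin hjn (hlt _ _ h5).1 (hlt _ _ h1).1 (hlt _ _ h3).1 (hlt _ _ h5).2 (by linarith)
      have hne : i' ≠ j' := fun h => hirr i' (by rw [← h] at h5; exact h5)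
      unfold Same3 at hs
      omega
  by_cases hI : ∀ c ∈ Z, c ≠ a → c ≠ b → ∃ l, NA l i ∧ NA l j ∧ c = a - ruler n i + ruler n l
  · -- all elements are `a - g i + g l`
    have hv : ∀ c : ℤ, ∃ l, c ∈ Z → l < n ∧ c = a - ruler n i + ruler n l := by
      intro c
      by_cases hc : c ∈ Z
      · by_cases hca : c = a
        · exact ⟨i, fun _ => ⟨hin, by rw [hca]; ring⟩⟩
        · by_cases hcb : c = b
          · exact ⟨j, fun _ => ⟨hjn, by rw [hcb]; linarith⟩⟩
          · obtain ⟨l, h1, _, h3⟩ := hI c hc hca hcb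
            exact ⟨l, fun _ => ⟨(hlt _ _ h1).1, h3⟩⟩
      · exact ⟨0, fun h => absurd h hc⟩
    choose v hv using hv
    refine ⟨v, fun z hz => (hv z hz).1, fun z hz z' hz' hne => ?_⟩
    obtain ⟨i', j', h5, e3⟩ := hZ z hz z' hz' hne
    have h6 := (hv z hz).2
    have h7 := (hv z' hz').2
    have hs := ruler_same_int (n := n) (a := v z') (b := i') (c := i') (d := v z) (e := j')
      (f := i') (hv z' hz').1 (hlt _ _ h5).1 (hlt _ _ h5).1 (hv z hz).1 (hlt _ _ h5).2
      (hlt _ _ h5).1 (by linarith)
    have hne' : i' ≠ j' := fun h => hirr i' (by rw [← h] at h5; exact h5)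
    unfold Same3 at hs
    have hvv : v z ≠ v z' := by
      intro h
      rw [h] at h6
      exact hne (h6.trans h7.symm)
    have h8 : v z = i' ∧ v z' = j' := by omega
    rw [h8.1, h8.2]
    exact h5
  · -- all elements are `a + g j - g l`
    push Not at hI
    obtain ⟨c0, hc0, hc0a, hc0b, hc0I⟩ := hI
    have hII : ∀ c ∈ Z, c ≠ a → c ≠ b → ∃ l, NA l i ∧ NA l j ∧ c = a + ruler n j - ruler n l := by
      intro c hc hca hcb
      rcases htype c hc hca hcb with ⟨l, h1, h2, h3⟩ | h
      · exfalso
        rcases htype c0 hc0 hc0a hc0b with ⟨l', h1', h2', h3'⟩ | ⟨l', h1', h2', h3'⟩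
        · exact hc0I l' h1' h2' h3'
        · exact hexcl c hc c0 hc0 l l' h1 h2 h1' h2' h3 h3'
      · exact h
    have hv : ∀ c : ℤ, ∃ l, c ∈ Z → l < n ∧ c = a + ruler n j - ruler n l := by
      intro c
      by_cases hc : c ∈ Z
      · by_cases hca : c = a
        · exact ⟨j, fun _ => ⟨hjn, by rw [hca]; ring⟩⟩
        · by_cases hcb : c = b
          · exact ⟨i, fun _ => ⟨hin, by rw [hcb]; linarith⟩⟩
          · obtain ⟨l, h1, _, h3⟩ := hII c hc hca hcb
            exact ⟨l, fun _ => ⟨(hlt _ _ h1).1, h3⟩⟩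
      · exact ⟨0, fun h => absurd h hc⟩
    choose v hv using hv
    refine ⟨v, fun z hz => (hv z hz).1, fun z hz z' hz' hne => ?_⟩
    obtain ⟨i', j', h5, e3⟩ := hZ z hz z' hz' hne
    have h6 := (hv z hz).2
    have h7 := (hv z' hz').2
    have hs := ruler_same_int (n := n) (a := v z) (b := i') (c := i') (d := v z') (e := j')
      (f := i') (hv z hz).1 (hlt _ _ h5).1 (hlt _ _ h5).1 (hv z' hz').1 (hlt _ _ h5).2
      (hlt _ _ h5).1 (by linarith)
    have hne' : i' ≠ j' := fun h => hirr i' (by rw [← h] at h5; exact h5)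
    unfold Same3 at hs
    have hvv : v z ≠ v z' := by
      intro h
      rw [h] at h6
      exact hne (h6.trans h7.symm)
    have h8 : v z = j' ∧ v z' = i' := by omega
    rw [h8.1, h8.2]
    exact hsymm _ _ h5

end Pool.Agent.H693R2.Cap
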