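import Pool.Agent.H693R2.Cap.Upper
import Pool.Agent.H693R2.Cap.Lower
import Pool.Agent.H693R2.Cap.Ruler
import Pool.Agent.NPC.Sat

/-!
# The reduction from 3SAT
-/

set_option autoImplicit false

namespace Pool.Agent.H693R2.Cap

open Pool.Agent.NPC

/-- Clauses. -/
abbrev Clause : Type := Lit ℕ × Lit ℕ × Lit ℕ

/-- A clause satisfied by all assignments. -/
def taut : Clause := ((true, 0), (false, 0), (true, 0))

/-- The exponent. -/
def kk (φ : List Clause) : ℕ := φ.length.bits.length + 1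

/-- The number of symbols, `2^k`. -/
def KK (φ : List Clause) : ℕ := 2 ^ kk φ

/-- The `w`-th clause. -/
def cl (φ : List Clause) (w : ℕ) : Clause := φ.getD w taut

/-- The literal at vertex `j`. -/
def lit (φ : List Clause) (j : ℕ) : Lit ℕ :=
  if j % 3 = 0 then (cl φ (j / 3)).1 else if j % 3 = 1 then (cl φ (j / 3)).2.1 else
    (cl φ (j / 3)).2.2

/-- Adjacency: different clauses and no conflict. -/
def na (φ : List Clause) (i j : ℕ) : Bool :=
  decide (i < 3 * KK φ) && (decide (j < 3 * KK φ) && (!decide (i / 3 = j / 3) &&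
    (!decide ((lit φ i).2 = (lit φ j).2) || decide ((lit φ i).1 = (lit φ j).1))))

/-- Allowed distances. -/
def al (φ : List Clause) (e : ℕ) : Bool :=
  (List.range (3 * KK φ)).any (fun i => (List.range (3 * KK φ)).any (fun j =>
    na φ i j && decide (ruler (3 * KK φ) i + e = ruler (3 * KK φ) j)))

/-- A bound for the marks. -/
def GG (φ : List Clause) : ℕ := rulerBound (3 * KK φ)

/-- The denominator of the threshold. -/
def MM (φ : List Clause) : ℕ := KK φ * (GG φ + 3 * kk φ + 1)

/-- The window length. -/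
def RR (φ : List Clause) : ℕ := kk φ * MM φ - GG φ

/-- The forbidden patterns. -/
def inst (φ : List Clause) : List (List SignType) := pats (RR φ) (al φ)

theorem na_iff {φ : List Clause} {i j : ℕ} : na φ i j = true ↔
    i < 3 * KK φ ∧ j < 3 * KK φ ∧ i / 3 ≠ j / 3 ∧
      ((lit φ i).2 = (lit φ j).2 → (lit φ i).1 = (lit φ j).1) := by
  unfold na
  simp only [Bool.and_eq_true, decide_eq_true_eq, Bool.or_eq_true, Bool.not_eq_eq_eq_not,
    Bool.not_true, decide_eq_false_iff_not, ne_eq]
  tauto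

theorem al_iff {φ : List Clause} {e : ℕ} : al φ e = true ↔
    ∃ i j, na φ i j = true ∧ ruler (3 * KK φ) i + e = ruler (3 * KK φ) j := by
  unfold al
  simp only [List.any_eq_true, List.mem_range, Bool.and_eq_true, decide_eq_true_eq]
  constructor
  · rintro ⟨i, _, j, _, h1, h2⟩
    exact ⟨i, j, h1, h2⟩
  · rintro ⟨i, j, h1, h2⟩
    have := na_iff.1 h1
    exact ⟨i, this.1, j, this.2.1, h1, h2⟩

theorem length_lt_KK (φ : List Clause) : φ.length < KK φ := by
  unfold KK kk
  have := Nat.lt_size_self φ.length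
  rw [← Nat.size_eq_bits_len] at this
  rw [pow_succ]
  omega

theorem two_le_KK (φ : List Clause) : 2 ≤ KK φ := by
  unfold KK kk
  rw [pow_succ]
  have : 0 < 2 ^ φ.length.bits.length := by positivity
  omega

theorem one_le_kk (φ : List Clause) : 1 ≤ kk φ := by
  unfold kk
  omega

theorem GG_add (φ : List Clause) : GG φ + 4 ≤ GG φ + 3 * kk φ + 1 := by
  have := one_le_kk φ
  omega

theorem two_GG_le_MM (φ : List Clause) : 2 * GG φ + 8 ≤ MM φ := by
  unfold MM
  have h1 := two_le_KK φ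
  have h2 := GG_add φ
  have := Nat.mul_le_mul h1 h2
  omega

theorem MM_le (φ : List Clause) : MM φ ≤ kk φ * MM φ :=
  Nat.le_mul_of_pos_left _ (one_le_kk φ)

theorem RR_add (φ : List Clause) : RR φ + GG φ = kk φ * MM φ := by
  unfold RR
  have h1 := two_GG_le_MM φ
  have h2 := MM_le φ
  omega

theorem GG_le_RR (φ : List Clause) : GG φ ≤ RR φ := by
  have h1 := two_GG_le_MM φ
  have h2 := MM_le φ
  have h3 := RR_add φ
  omega

theorem one_le_RR (φ : List Clause) : 1 ≤ RR φ := by
  have h1 := two_GG_le_MM φ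
  have h2 := MM_le φ
  have h3 := RR_add φ
  omega

theorem MM_pos (φ : List Clause) : 0 < MM φ := by
  have h1 := two_GG_le_MM φ
  omega

/-- Differences of a set with allowed distances come from the ruler. -/
theorem exists_indep {φ : List Clause} {Z : Finset ℤ}
    (hZ : ∀ z ∈ Z, ∀ z' ∈ Z, z ≠ z' → al φ (z' - z).natAbs = true) :
    ∃ v : ℤ → ℕ, (∀ z ∈ Z, v z < 3 * KK φ) ∧
      ∀ z ∈ Z, ∀ z' ∈ Z, z ≠ z' → na φ (v z) (v z') = true := by
  have hs : ∀ i j, na φ i j = true → na φ j i = true := by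
    intro i j h
    rw [na_iff] at h ⊢
    exact ⟨h.2.1, h.1, h.2.2.1.symm, fun h' => (h.2.2.2 h'.symm).symm⟩
  apply exists_vertices (NA := fun i j => na φ i j = true) (n := 3 * KK φ)
  · intro i j h
    exact ⟨(na_iff.1 h).1, (na_iff.1 h).2.1⟩
  · exact hs
  · intro i h
    exact (na_iff.1 h).2.2.1 rfl
  · have := two_le_KK φ
    omega
  · intro z hz z' hz' hne
    obtain ⟨i, j, h1, h2⟩ := al_iff.1 (hZ z hz z' hz' hne)
    rcases le_total z z' with h | h
    · refine ⟨i, j, h1, ?_⟩
      have : ((z' - z).natAbs : ℤ) = z' - z := by omega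
      have h3 : (ruler (3 * KK φ) i : ℤ) + ((z' - z).natAbs : ℤ) = ruler (3 * KK φ) j := by
        exact_mod_cast h2
      linarith
    · refine ⟨j, i, hs _ _ h1, ?_⟩
      have : ((z' - z).natAbs : ℤ) = z - z' := by omega
      have h3 : (ruler (3 * KK φ) i : ℤ) + ((z' - z).natAbs : ℤ) = ruler (3 * KK φ) j := by
        exact_mod_cast h2
      linarith

/-- If the formula is not satisfiable, sets with allowed distances have fewer than `2^k`
elements. -/
theorem card_le_of_unsat {φ : List Clause} (hφ : ¬ SAT3 φ) {Z : Finset ℤ}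
    (hZ : ∀ z ∈ Z, ∀ z' ∈ Z, z ≠ z' → al φ (z' - z).natAbs = true) : Z.card ≤ KK φ - 1 := by
  classical
  obtain ⟨v, hv, hvna⟩ := exists_indep hZ
  have hinj : Set.InjOn (fun z => v z / 3) Z := by
    intro z hz z' hz' h
    by_contra hne
    exact (na_iff.1 (hvna z hz z' hz' hne)).2.2.1 h
  have hsub : Z.image (fun z => v z / 3) ⊆ Finset.range (KK φ) := by
    intro w hw
    rw [Finset.mem_image] at hw
    obtain ⟨z, hz, rfl⟩ := hw
    rw [Finset.mem_range]
    have := hv z hz
    omega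
  have hcard : Z.card ≤ KK φ := by
    rw [← Finset.card_image_of_injOn hinj]
    simpa using Finset.card_le_card hsub
  by_contra hcon
  have heq : Z.card = KK φ := by omega
  have himg : Z.image (fun z => v z / 3) = Finset.range (KK φ) := by
    apply Finset.eq_of_subset_of_card_le hsub
    rw [Finset.card_image_of_injOn hinj, heq, Finset.card_range]
  apply hφ
  refine ⟨fun x => decide (∃ z ∈ Z, lit φ (v z) = (true, x)), ?_⟩
  intro c hc
  obtain ⟨w, hw, hwc⟩ := List.getElem_of_mem hc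
  have hwK : w < KK φ := hw.trans (length_lt_KK φ)
  have hclw : cl φ w = c := by
    unfold cl
    rw [List.getD_eq_getElem _ _ hw, hwc]
  have hwm : w ∈ Z.image (fun z => v z / 3) := by
    rw [himg, Finset.mem_range]
    exact hwK
  rw [Finset.mem_image] at hwm
  obtain ⟨z, hz, hzw⟩ := hwm
  have hval : ∀ b x, lit φ (v z) = (b, x) →
      decide (∃ z ∈ Z, lit φ (v z) = (true, x)) = b := by
    intro b x hbx
    cases b with
    | true => exact decide_eq_true ⟨z, hz, hbx⟩
    | false =>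
      apply decide_eq_false
      rintro ⟨z', hz', hz'x⟩
      have hne : z ≠ z' := by
        rintro rfl
        rw [hbx] at hz'x
        simp at hz'x
      have := (na_iff.1 (hvna z hz z' hz' hne)).2.2.2
      rw [hbx, hz'x] at this
      simp at this
  have hval' := hval (lit φ (v z)).1 (lit φ (v z)).2 rfl
  unfold lit at hval'
  rw [hzw, hclw] at hval'
  rcases Nat.lt_or_ge (v z % 3) 1 with h0 | h0
  · have h0' : v z % 3 = 0 := by omega
    rw [if_pos h0'] at hval'
    left
    exact hval'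
  · rcases Nat.lt_or_ge (v z % 3) 2 with h1 | h1
    · have h1' : v z % 3 = 1 := by omega
      rw [if_neg (by omega), if_pos h1'] at hval'
      right; left
      exact hval'
    · rw [if_neg (by omega), if_neg (by omega)] at hval'
      right; right
      exact hval'

/-- A satisfying assignment gives a vertex for each clause. -/
theorem exists_choice {φ : List Clause} (hφ : SAT3 φ) : ∃ j : ℕ → ℕ,
    ∀ w, w < KK φ → j w < 3 * KK φ ∧ j w / 3 = w ∧
      ∀ w', w' < KK φ → w ≠ w' → na φ (j w) (j w') = true := by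
  obtain ⟨τ, hτ⟩ := hφ
  have hcl : ∀ w, τ (cl φ w).1.2 = (cl φ w).1.1 ∨ τ (cl φ w).2.1.2 = (cl φ w).2.1.1 ∨
      τ (cl φ w).2.2.2 = (cl φ w).2.2.1 := by
    intro w
    unfold cl
    rcases Nat.lt_or_ge w φ.length with h | h
    · rw [List.getD_eq_getElem _ _ h]
      exact hτ _ (List.getElem_mem h)
    · rw [List.getD_eq_default _ _ h]
      unfold taut
      cases τ 0 <;> simp
  have hex : ∀ w, ∃ r, r < 3 ∧ τ (lit φ (3 * w + r)).2 = (lit φ (3 * w + r)).1 := by
    intro w
    rcases hcl w with h | h | h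
    · refine ⟨0, by norm_num, ?_⟩
      unfold lit
      rw [show (3 * w + 0) / 3 = w by omega, if_pos (by omega)]
      exact h
    · refine ⟨1, by norm_num, ?_⟩
      unfold lit
      rw [show (3 * w + 1) / 3 = w by omega, if_neg (by omega), if_pos (by omega)]
      exact h
    · refine ⟨2, by norm_num, ?_⟩
      unfold lit
      rw [show (3 * w + 2) / 3 = w by omega, if_neg (by omega), if_neg (by omega)]
      exact h
  choose r hr hr' using hex
  refine ⟨fun w => 3 * w + r w, fun w hw => ⟨?_, ?_, ?_⟩⟩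
  · have := hr w
    show 3 * w + r w < 3 * KK φ
    omega
  · have := hr w
    show (3 * w + r w) / 3 = w
    omega
  · intro w' hw' hne
    show na φ (3 * w + r w) (3 * w' + r w') = true
    rw [na_iff]
    have := hr w
    have := hr w'
    refine ⟨by omega, by omega, by omega, ?_⟩
    intro h
    rw [← hr' w, ← hr' w', h]

theorem ruler_injective {n i j : ℕ} (hi : i < n) (hj : j < n) (h : ruler n i = ruler n j) :
    i = j := by
  have := ruler_same hi hi hi hj hj hj (by rw [h])
  unfold Same3 at this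
  omega

theorem cap_ge_of_sat {φ : List Clause} (hφ : SAT3 φ) : (1 : ℝ) / MM φ ≤ cap (inst φ) := by
  obtain ⟨j, hj⟩ := exists_choice hφ
  have h1 : ∀ T, KK φ ^ T ≤ delta (inst φ) (kk φ * MM φ * T) := by
    intro T
    unfold inst
    refine delta_lower (G := GG φ) (h := fun w => ruler (3 * KK φ) (j w)) (one_le_RR φ)
      (by have := two_le_KK φ; omega) (GG_le_RR φ) (RR_add φ).symm ?_ ?_ ?_ T
    · intro c hc
      exact ruler_lt (hj c hc).1
    · intro c c' hc hc' hne h
      have := ruler_injective (hj c hc).1 (hj c' hc').1 h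
      apply hne
      rw [← (hj c hc).2.1, ← (hj c' hc').2.1, this]
    · intro c c' hc hc' hlt
      rw [al_iff]
      refine ⟨j c, j c', (hj c hc).2.2 c' hc' ?_, ?_⟩
      · rintro rfl
        omega
      · show ruler (3 * KK φ) (j c) + (ruler (3 * KK φ) (j c') - ruler (3 * KK φ) (j c)) = _
        omega
  have h2 := cap_ge_of_delta (Nat.mul_pos (one_le_kk φ) (MM_pos φ))
    (by have := two_le_KK φ; omega : 0 < KK φ) h1
  refine le_trans (le_of_eq ?_) h2
  have hk : (0 : ℝ) < kk φ := by exact_mod_cast one_le_kk φ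
  have hM : (0 : ℝ) < MM φ := by exact_mod_cast MM_pos φ
  unfold KK
  push_cast
  rw [Real.logb_pow, Real.logb_self_eq_one (by norm_num)]
  field_simp

theorem logb_two_pow_sub_one {k : ℕ} (hk : 1 ≤ k) :
    Real.logb 2 (((2 ^ k - 1 : ℕ) : ℝ)) ≤ k - 1 / 2 ^ k := by
  have h2 : (2 : ℝ) ≤ 2 ^ k := by
    calc (2 : ℝ) = 2 ^ 1 := by norm_num
      _ ≤ 2 ^ k := pow_le_pow_right₀ (by norm_num) hk
  have hcast : ((2 ^ k - 1 : ℕ) : ℝ) = 2 ^ k * (1 - 1 / 2 ^ k) := by
    rw [Nat.cast_sub Nat.one_le_two_pow]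
    push_cast
    field_simp
  have hpos : (0 : ℝ) < 1 - 1 / 2 ^ k := by
    have : (1 : ℝ) / 2 ^ k ≤ 1 / 2 := by
      apply one_div_le_one_div_of_le (by norm_num) h2
    linarith
  rw [hcast, Real.logb_mul (by positivity) hpos.ne', Real.logb_pow,
    Real.logb_self_eq_one (by norm_num)]
  have h3 : Real.logb 2 (1 - 1 / 2 ^ k) ≤ -(1 / 2 ^ k) := by
    unfold Real.logb
    have h4 : Real.log (1 - 1 / 2 ^ k) ≤ -(1 / 2 ^ k) := by
      have := Real.log_le_sub_one_of_pos hpos
      linarith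
    have h5 : (0 : ℝ) < Real.log 2 := Real.log_pos (by norm_num)
    have h6 : Real.log 2 ≤ 1 := by
      have := Real.log_le_sub_one_of_pos (show (0 : ℝ) < 2 by norm_num)
      linarith
    rw [div_le_iff₀ h5]
    have h7 : (0 : ℝ) < 1 / 2 ^ k := by positivity
    nlinarith
  linarith

theorem cap_le_of_unsat {φ : List Clause} (hφ : ¬ SAT3 φ) :
    cap (inst φ) ≤ (MM φ - 3) / (MM φ) ^ 2 := by
  have hK := two_le_KK φ
  have h1 : cap (inst φ) ≤ Real.logb 2 ((KK φ - 1 : ℕ) : ℝ) / RR φ := by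
    apply cap_le_of_delta (one_le_RR φ) (by omega)
    intro t
    exact delta_upper (one_le_RR φ) (by omega) (fun Z hZ => card_le_of_unsat hφ hZ) t
  have h2 := logb_two_pow_sub_one (one_le_kk φ)
  have hR : (0 : ℝ) < RR φ := by exact_mod_cast one_le_RR φ
  have hM : (0 : ℝ) < MM φ := by exact_mod_cast MM_pos φ
  have h3 : Real.logb 2 ((KK φ - 1 : ℕ) : ℝ) / RR φ ≤ (kk φ - 1 / 2 ^ kk φ) / RR φ := by
    apply div_le_div_of_nonneg_right _ hR.le
    exact h2
  refine h1.trans (h3.trans ?_)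
  rw [div_le_div_iff₀ hR (by positivity)]
  have h4 : (RR φ : ℝ) = kk φ * MM φ - GG φ := by
    have := RR_add φ
    have h5 : (RR φ : ℝ) + GG φ = kk φ * MM φ := by exact_mod_cast this
    linarith
  have hKp : (0 : ℝ) < 2 ^ kk φ := by positivity
  have h6 : (MM φ : ℝ) = 2 ^ kk φ * (GG φ + 3 * kk φ + 1) := by
    have : MM φ = 2 ^ kk φ * (GG φ + 3 * kk φ + 1) := rfl
    exact_mod_cast this
  have h7 : 1 / 2 ^ kk φ * (MM φ : ℝ) = GG φ + 3 * kk φ + 1 := by
    rw [h6]
    field_simp
  have hG : (0 : ℝ) ≤ GG φ := Nat.cast_nonneg _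
  rw [h4]
  calc ((kk φ : ℝ) - 1 / 2 ^ kk φ) * (MM φ : ℝ) ^ 2
      = (kk φ : ℝ) * (MM φ : ℝ) ^ 2 - (1 / 2 ^ kk φ * (MM φ : ℝ)) * MM φ := by ring
    _ = (kk φ : ℝ) * (MM φ : ℝ) ^ 2 - ((GG φ : ℝ) + 3 * kk φ + 1) * MM φ := by rw [h7]
    _ ≤ ((MM φ : ℝ) - 3) * ((kk φ : ℝ) * MM φ - GG φ) := by nlinarith

end Pool.Agent.H693R2.Cap
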