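import Pool.Agent.H693R2.Cap.Defs

/-!
# The forbidden patterns used by the reduction
-/

set_option autoImplicit false

namespace Pool.Agent.H693R2.Cap

/-- The word `0^a` (for `a ≤ R`). -/
def zeros (R a : ℕ) : List SignType :=
  ((List.range R).filter (fun i => decide (i < a))).map (fun _ => (0 : SignType))

theorem filter_range_lt (R a : ℕ) (h : a ≤ R) :
    (List.range R).filter (fun i => decide (i < a)) = List.range a := by
  obtain ⟨b, rfl⟩ := Nat.exists_eq_add_of_le h
  rw [List.range_add, List.filter_append, List.filter_eq_self.2, List.filter_eq_nil_iff.2]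
  · simp
  · intro x hx
    rw [List.mem_map] at hx
    obtain ⟨y, _, rfl⟩ := hx
    simp
  · intro x hx
    simpa using hx

theorem zeros_eq (R a : ℕ) (h : a ≤ R) : zeros R a = List.replicate a 0 := by
  unfold zeros
  rw [filter_range_lt R a h, List.map_const', List.length_range]

/-- `+ 0^a +` with `a + 1 < R`. -/
def D1 (R : ℕ) : List (List SignType) :=
  ((List.range R).filter (fun a => decide (a + 1 < R))).map (fun a => 1 :: (zeros R a ++ [1]))

/-- `+ 0^a -` with `a + 1 < R` and `a + 1` not an allowed distance. -/
def D2 (R : ℕ) (al : ℕ → Bool) : List (List SignType) :=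
  ((List.range R).filter (fun a => decide (a + 1 < R) && !(al (a + 1)))).map
    (fun a => 1 :: (zeros R a ++ [-1]))

/-- `+ 0^a - 0^b +` with `a + b + 2 < R`. -/
def D3 (R : ℕ) : List (List SignType) :=
  (List.range R).flatMap (fun a => ((List.range R).filter (fun b => decide (a + b + 2 < R))).map
    (fun b => 1 :: (zeros R a ++ (-1 :: (zeros R b ++ [1])))))

/-- `0^{R-1} + 0^{R-1}`. -/
def D4 (R : ℕ) : List (List SignType) := [zeros R (R - 1) ++ (1 :: zeros R (R - 1))]

/-- The set of forbidden patterns of the reduction. -/
def pats (R : ℕ) (al : ℕ → Bool) : List (List SignType) := D1 R ++ (D2 R al ++ (D3 R ++ D4 R))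

theorem mem_D1 {R : ℕ} {d : List SignType} : d ∈ D1 R ↔
    ∃ a, a + 1 < R ∧ d = 1 :: (List.replicate a 0 ++ [1]) := by
  unfold D1
  simp only [List.mem_map, List.mem_filter, List.mem_range, decide_eq_true_eq]
  constructor
  · rintro ⟨a, ⟨_, h⟩, rfl⟩
    exact ⟨a, h, by rw [zeros_eq R a (by omega)]⟩
  · rintro ⟨a, h, rfl⟩
    exact ⟨a, ⟨by omega, h⟩, by rw [zeros_eq R a (by omega)]⟩

theorem mem_D2 {R : ℕ} {al : ℕ → Bool} {d : List SignType} : d ∈ D2 R al ↔
    ∃ a, a + 1 < R ∧ al (a + 1) = false ∧ d = 1 :: (List.replicate a 0 ++ [-1]) := by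
  unfold D2
  simp only [List.mem_map, List.mem_filter, List.mem_range, Bool.and_eq_true, decide_eq_true_eq,
    Bool.not_eq_eq_eq_not, Bool.not_true]
  constructor
  · rintro ⟨a, ⟨_, h, h'⟩, rfl⟩
    exact ⟨a, h, h', by rw [zeros_eq R a (by omega)]⟩
  · rintro ⟨a, h, h', rfl⟩
    exact ⟨a, ⟨by omega, h, h'⟩, by rw [zeros_eq R a (by omega)]⟩

theorem mem_D3 {R : ℕ} {d : List SignType} : d ∈ D3 R ↔
    ∃ a b, a + b + 2 < R ∧
      d = 1 :: (List.replicate a 0 ++ (-1 :: (List.replicate b 0 ++ [1]))) := by
  unfold D3
  simp only [List.mem_flatMap, List.mem_map, List.mem_filter, List.mem_range, decide_eq_true_eq]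
  constructor
  · rintro ⟨a, _, b, ⟨_, h⟩, rfl⟩
    exact ⟨a, b, h, by rw [zeros_eq R a (by omega), zeros_eq R b (by omega)]⟩
  · rintro ⟨a, b, h, rfl⟩
    exact ⟨a, by omega, b, ⟨by omega, h⟩, by rw [zeros_eq R a (by omega), zeros_eq R b (by omega)]⟩

theorem mem_D4 {R : ℕ} {d : List SignType} : d ∈ D4 R ↔
    d = List.replicate (R - 1) 0 ++ (1 :: List.replicate (R - 1) 0) := by
  unfold D4
  rw [List.mem_singleton, zeros_eq R (R - 1) (by omega)]

theorem pats_ne_nil (R : ℕ) (al : ℕ → Bool) : pats R al ≠ [] := by
  unfold pats D4
  simp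

/-- The letters of a word, as a function. -/
def bit (w : List Bool) (i : ℕ) : Bool := w.getD i false

theorem bit_ext {u v : List Bool} (h : u.length = v.length) (h' : ∀ i, bit u i = bit v i) :
    u = v := by
  apply List.ext_getElem h
  intro i h1 h2
  have := h' i
  unfold bit at this
  rwa [List.getD_eq_getElem _ _ h1, List.getD_eq_getElem _ _ h2] at this

theorem bit_of_le {w : List Bool} {i : ℕ} (h : w.length ≤ i) : bit w i = false := by
  unfold bit
  rw [List.getD_eq_default _ _ h]

theorem infix_diff_iff {u v : List Bool} {t : ℕ} (hu : u.length = t) (hv : v.length = t)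
    (d : List SignType) : d <:+: diff u v ↔
      ∃ s, s + d.length ≤ t ∧ ∀ i (h : i < d.length), bitDiff (bit u (s + i)) (bit v (s + i)) =
        d[i] := by
  rw [List.infix_iff_getElem?, length_diff, hu, hv, min_self]
  constructor
  · rintro ⟨s, h1, h2⟩
    refine ⟨s, by omega, fun i h => ?_⟩
    have h3 := h2 i h
    unfold diff at h3
    rw [List.getElem?_zipWith, List.getElem?_eq_getElem (by omega),
      List.getElem?_eq_getElem (by omega)] at h3
    simp only [Option.some.injEq] at h3
    rw [← h3]
    unfold bit
    rw [List.getD_eq_getElem _ _ (by omega), List.getD_eq_getElem _ _ (by omega)]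
    simp only [add_comm]
  · rintro ⟨s, h1, h2⟩
    refine ⟨s, by omega, fun i h => ?_⟩
    have h3 := h2 i h
    unfold diff
    rw [List.getElem?_zipWith, List.getElem?_eq_getElem (by omega),
      List.getElem?_eq_getElem (by omega)]
    simp only [Option.some.injEq]
    rw [← h3]
    unfold bit
    rw [List.getD_eq_getElem _ _ (by omega), List.getD_eq_getElem _ _ (by omega)]
    simp only [add_comm]

/-- The conditions on a pair of words expressed by the forbidden patterns. -/
structure Good (R : ℕ) (al : ℕ → Bool) (t : ℕ) (f g : ℕ → Bool) : Prop where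
  a1 : ∀ x y, x < y → y < t → y < x + R → f x ≠ g x → f y ≠ g y →
    (∀ z, x < z → z < y → f z = g z) → f y ≠ f x
  a2 : ∀ x y, x < y → y < t → y < x + R → f x ≠ g x → f y ≠ g y →
    (∀ z, x < z → z < y → f z = g z) → al (y - x) = true
  a3 : ∀ x y z, x < y → y < z → z < t → z < x + R → f x ≠ g x → f y ≠ g y → f z ≠ g z →
    (∀ w, x < w → w < y → f w = g w) → (∀ w, y < w → w < z → f w = g w) → False
  a4 : ∀ x, R ≤ x + 1 → x + R ≤ t → f x ≠ g x →
    ∃ y, y ≠ x ∧ y < x + R ∧ x < y + R ∧ f y ≠ g y

theorem bitDiff_eq_zero {a b : Bool} : bitDiff a b = 0 ↔ a = b := by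
  cases a <;> cases b <;> simp [bitDiff]

theorem bitDiff_eq_one {a b : Bool} : bitDiff a b = 1 ↔ a = true ∧ b = false := by
  cases a <;> cases b <;> simp [bitDiff]

theorem bitDiff_eq_neg_one {a b : Bool} : bitDiff a b = -1 ↔ a = false ∧ b = true := by
  cases a <;> cases b <;> simp [bitDiff]

theorem bne_true {a b : Bool} (h : a ≠ b) (ha : a = true) : b = false := by
  cases a <;> cases b <;> simp_all

theorem bne_false {a b : Bool} (h : a ≠ b) (ha : a = false) : b = true := by
  cases a <;> cases b <;> simp_all

/-- The words of `D1`, `D2` in a difference. -/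
theorem infix_two {u v : List Bool} {t : ℕ} (hu : u.length = t) (hv : v.length = t)
    (a : ℕ) (e : SignType) : (1 :: (List.replicate a 0 ++ [e])) <:+: diff u v ↔
      ∃ x y, y = x + a + 1 ∧ y < t ∧ bit u x = true ∧ bit v x = false ∧
        bitDiff (bit u y) (bit v y) = e ∧ ∀ z, x < z → z < y → bit u z = bit v z := by
  rw [infix_diff_iff hu hv]
  constructor
  · rintro ⟨s, h1, h2⟩
    simp only [List.length_cons, List.length_append, List.length_replicate, List.length_nil] at h1
    have h3 := h2 0 (by simp)
    simp only [Nat.add_zero, List.getElem_cons_zero] at h3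
    rw [bitDiff_eq_one] at h3
    have h4 := h2 (a + 1) (by simp)
    simp only [List.getElem_cons_succ] at h4
    rw [List.getElem_append_right (by simp)] at h4
    simp only [List.length_replicate, Nat.sub_self, List.getElem_cons_zero] at h4
    refine ⟨s, s + (a + 1), by omega, by omega, h3.1, h3.2, h4, ?_⟩
    intro z hz1 hz2
    have h5 := h2 (z - s) (by simp; omega)
    rw [show s + (z - s) = z by omega] at h5
    obtain ⟨c, hc⟩ : ∃ c, z - s = c + 1 := ⟨z - s - 1, by omega⟩
    simp only [hc, List.getElem_cons_succ] at h5
    rw [List.getElem_append_left (by simp; omega), List.getElem_replicate, bitDiff_eq_zero] at h5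
    exact h5
  · rintro ⟨x, y, rfl, h1, h2, h3, h4, h5⟩
    refine ⟨x, by simp; omega, ?_⟩
    intro i hi
    simp only [List.length_cons, List.length_append, List.length_replicate, List.length_nil] at hi
    rcases Nat.eq_zero_or_pos i with rfl | hi0
    · simp only [Nat.add_zero, List.getElem_cons_zero]
      rw [bitDiff_eq_one]
      exact ⟨h2, h3⟩
    · obtain ⟨c, rfl⟩ : ∃ c, i = c + 1 := ⟨i - 1, by omega⟩
      simp only [List.getElem_cons_succ]
      rcases Nat.lt_or_ge c a with hc | hc
      · rw [List.getElem_append_left (by simp; omega), List.getElem_replicate, bitDiff_eq_zero]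
        exact h5 _ (by omega) (by omega)
      · have : c = a := by omega
        subst this
        rw [List.getElem_append_right (by simp)]
        simp only [List.length_replicate, Nat.sub_self, List.getElem_cons_zero]
        exact h4

/-- The words of `D3` in a difference. -/
theorem infix_three {u v : List Bool} {t : ℕ} (hu : u.length = t) (hv : v.length = t)
    (a b : ℕ) :
    (1 :: (List.replicate a 0 ++ (-1 :: (List.replicate b 0 ++ [1])))) <:+: diff u v ↔
      ∃ x y z, y = x + a + 1 ∧ z = y + b + 1 ∧ z < t ∧ bit u x = true ∧ bit v x = false ∧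
        bit u y = false ∧ bit v y = true ∧ bit u z = true ∧ bit v z = false ∧
        (∀ w, x < w → w < y → bit u w = bit v w) ∧ (∀ w, y < w → w < z → bit u w = bit v w) := by
  rw [infix_diff_iff hu hv]
  constructor
  · rintro ⟨s, h1, h2⟩
    simp only [List.length_cons, List.length_append, List.length_replicate, List.length_nil] at h1
    have h3 := h2 0 (by simp)
    simp only [Nat.add_zero, List.getElem_cons_zero] at h3
    rw [bitDiff_eq_one] at h3
    have h4 := h2 (a + 1) (by simp)
    simp only [List.getElem_cons_succ] at h4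
    rw [List.getElem_append_right (by simp)] at h4
    simp only [List.length_replicate, Nat.sub_self, List.getElem_cons_zero] at h4
    rw [bitDiff_eq_neg_one] at h4
    have h6 := h2 (a + 1 + (b + 1)) (by simp; omega)
    rw [show s + (a + 1 + (b + 1)) = s + (a + 1) + (b + 1) by omega] at h6
    have e6 : ∀ (h : a + 1 + (b + 1) < (1 :: (List.replicate a 0 ++ (-1 :: (List.replicate b 0 ++
        [(1 : SignType)])))).length),
        (1 :: (List.replicate a 0 ++ (-1 :: (List.replicate b 0 ++ [(1 : SignType)]))))[a + 1 +
          (b + 1)] = 1 := by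
      intro h
      have : a + 1 + (b + 1) = (a + (b + 1)) + 1 := by omega
      simp only [this, List.getElem_cons_succ]
      rw [List.getElem_append_right (by simp)]
      simp only [List.length_replicate, Nat.add_sub_cancel_left, List.getElem_cons_succ]
      rw [List.getElem_append_right (by simp)]
      simp
    rw [e6, bitDiff_eq_one] at h6
    refine ⟨s, s + (a + 1), s + (a + 1) + (b + 1), by omega, by omega, by omega, h3.1, h3.2, h4.1,
      h4.2, h6.1, h6.2, ?_, ?_⟩
    · intro z hz1 hz2
      have h5 := h2 (z - s) (by simp; omega)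
      rw [show s + (z - s) = z by omega] at h5
      obtain ⟨c, hc⟩ : ∃ c, z - s = c + 1 := ⟨z - s - 1, by omega⟩
      simp only [hc, List.getElem_cons_succ] at h5
      rw [List.getElem_append_left (by simp; omega), List.getElem_replicate, bitDiff_eq_zero] at h5
      exact h5
    · intro z hz1 hz2
      have h5 := h2 (z - s) (by simp; omega)
      rw [show s + (z - s) = z by omega] at h5
      obtain ⟨c, hc⟩ : ∃ c, z - s = (a + (c + 1)) + 1 := ⟨z - s - a - 2, by omega⟩
      simp only [hc, List.getElem_cons_succ] at h5
      rw [List.getElem_append_right (by simp)] at h5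
      simp only [List.length_replicate, Nat.add_sub_cancel_left, List.getElem_cons_succ] at h5
      rw [List.getElem_append_left (by simp; omega), List.getElem_replicate, bitDiff_eq_zero] at h5
      exact h5
  · rintro ⟨x, y, z, rfl, rfl, h1, h2, h3, h4, h5, h6, h7, h8, h9⟩
    refine ⟨x, by simp; omega, ?_⟩
    intro i hi
    simp only [List.length_cons, List.length_append, List.length_replicate, List.length_nil] at hi
    rcases Nat.eq_zero_or_pos i with rfl | hi0
    · simp only [Nat.add_zero, List.getElem_cons_zero]
      rw [bitDiff_eq_one]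
      exact ⟨h2, h3⟩
    · obtain ⟨c, rfl⟩ : ∃ c, i = c + 1 := ⟨i - 1, by omega⟩
      simp only [List.getElem_cons_succ]
      rcases Nat.lt_trichotomy c a with hc | rfl | hc
      · rw [List.getElem_append_left (by simp; omega), List.getElem_replicate, bitDiff_eq_zero]
        exact h8 _ (by omega) (by omega)
      · rw [List.getElem_append_right (by simp)]
        simp only [List.length_replicate, Nat.sub_self, List.getElem_cons_zero]
        rw [bitDiff_eq_neg_one]
        exact ⟨h4, h5⟩
      · rw [List.getElem_append_right (by simp; omega)]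
        obtain ⟨e, he⟩ : ∃ e, c = a + (e + 1) := ⟨c - a - 1, by omega⟩
        simp only [he, List.length_replicate, Nat.add_sub_cancel_left, List.getElem_cons_succ]
        rcases Nat.lt_or_ge e b with he' | he'
        · rw [List.getElem_append_left (by simp; omega), List.getElem_replicate, bitDiff_eq_zero]
          exact h9 _ (by omega) (by omega)
        · have : e = b := by omega
          subst this
          rw [List.getElem_append_right (by simp)]
          simp only [List.length_replicate, Nat.sub_self, List.getElem_cons_zero]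
          rw [bitDiff_eq_one]
          exact ⟨by convert h6 using 2; omega, by convert h7 using 2; omega⟩

/-- The word of `D4` in a difference. -/
theorem infix_four {u v : List Bool} {t : ℕ} (hu : u.length = t) (hv : v.length = t)
    (a : ℕ) : (List.replicate a 0 ++ (1 :: List.replicate a 0)) <:+: diff u v ↔
      ∃ x, a ≤ x ∧ x + a < t ∧ bit u x = true ∧ bit v x = false ∧
        ∀ y, x ≤ y + a → y ≤ x + a → y ≠ x → bit u y = bit v y := by
  rw [infix_diff_iff hu hv]
  constructor
  · rintro ⟨s, h1, h2⟩
    simp only [List.length_cons, List.length_append, List.length_replicate] at h1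
    have h3 := h2 a (by simp)
    rw [List.getElem_append_right (by simp)] at h3
    simp only [List.length_replicate, Nat.sub_self, List.getElem_cons_zero] at h3
    rw [bitDiff_eq_one] at h3
    refine ⟨s + a, by omega, by omega, h3.1, h3.2, ?_⟩
    intro z hz1 hz2 hz3
    have h5 := h2 (z - s) (by simp; omega)
    rw [show s + (z - s) = z by omega] at h5
    rcases Nat.lt_or_ge z (s + a) with hz | hz
    · rw [List.getElem_append_left (by simp; omega), List.getElem_replicate, bitDiff_eq_zero] at h5
      exact h5
    · obtain ⟨c, hc⟩ : ∃ c, z - s = a + (c + 1) := ⟨z - s - a - 1, by omega⟩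
      simp only [hc] at h5
      rw [List.getElem_append_right (by simp)] at h5
      simp only [List.length_replicate, Nat.add_sub_cancel_left, List.getElem_cons_succ,
        List.getElem_replicate] at h5
      rw [bitDiff_eq_zero] at h5
      exact h5
  · rintro ⟨x, h1, h2, h3, h4, h5⟩
    refine ⟨x - a, by simp; omega, ?_⟩
    intro i hi
    simp only [List.length_cons, List.length_append, List.length_replicate] at hi
    rcases Nat.lt_trichotomy i a with hc | rfl | hc
    · rw [List.getElem_append_left (by simp; omega), List.getElem_replicate, bitDiff_eq_zero]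
      exact h5 _ (by omega) (by omega) (by omega)
    · rw [List.getElem_append_right (by simp)]
      simp only [List.length_replicate, Nat.sub_self, List.getElem_cons_zero]
      rw [bitDiff_eq_one, show x - i + i = x by omega]
      exact ⟨h3, h4⟩
    · rw [List.getElem_append_right (by simp; omega)]
      obtain ⟨e, he⟩ : ∃ e, i = a + (e + 1) := ⟨i - a - 1, by omega⟩
      simp only [he, List.length_replicate, Nat.add_sub_cancel_left, List.getElem_cons_succ,
        List.getElem_replicate]
      rw [bitDiff_eq_zero]
      exact h5 _ (by omega) (by omega) (by omega)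

theorem not_infix_iff {u v : List Bool} {t : ℕ} {R : ℕ} {al : ℕ → Bool} (hR : 1 ≤ R)
    (hu : u.length = t) (hv : v.length = t) :
    ((∀ d ∈ pats R al, ¬ d <:+: diff u v) ∧ (∀ d ∈ pats R al, ¬ d <:+: diff v u)) ↔
      Good R al t (bit u) (bit v) := by
  constructor
  · rintro ⟨huv, hvu⟩
    have h1 : ∀ a, a + 1 < R → ¬ (1 :: (List.replicate a 0 ++ [1])) <:+: diff u v :=
      fun a ha => huv _ (by
        unfold pats; simp only [List.mem_append]
        exact Or.inl (mem_D1.2 ⟨a, ha, rfl⟩))
    have h1' : ∀ a, a + 1 < R → ¬ (1 :: (List.replicate a 0 ++ [1])) <:+: diff v u :=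
      fun a ha => hvu _ (by
        unfold pats; simp only [List.mem_append]
        exact Or.inl (mem_D1.2 ⟨a, ha, rfl⟩))
    have h2 : ∀ a, a + 1 < R → al (a + 1) = false →
        ¬ (1 :: (List.replicate a 0 ++ [-1])) <:+: diff u v :=
      fun a ha ha' => huv _ (by
        unfold pats; simp only [List.mem_append]
        exact Or.inr (Or.inl (mem_D2.2 ⟨a, ha, ha', rfl⟩)))
    have h2' : ∀ a, a + 1 < R → al (a + 1) = false →
        ¬ (1 :: (List.replicate a 0 ++ [-1])) <:+: diff v u :=
      fun a ha ha' => hvu _ (by
        unfold pats; simp only [List.mem_append]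
        exact Or.inr (Or.inl (mem_D2.2 ⟨a, ha, ha', rfl⟩)))
    have h3 : ∀ a b, a + b + 2 < R →
        ¬ (1 :: (List.replicate a 0 ++ (-1 :: (List.replicate b 0 ++ [1])))) <:+: diff u v :=
      fun a b hab => huv _ (by
        unfold pats; simp only [List.mem_append]
        exact Or.inr (Or.inr (Or.inl (mem_D3.2 ⟨a, b, hab, rfl⟩))))
    have h3' : ∀ a b, a + b + 2 < R →
        ¬ (1 :: (List.replicate a 0 ++ (-1 :: (List.replicate b 0 ++ [1])))) <:+: diff v u :=
      fun a b hab => hvu _ (by
        unfold pats; simp only [List.mem_append]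
        exact Or.inr (Or.inr (Or.inl (mem_D3.2 ⟨a, b, hab, rfl⟩))))
    have h4 : ¬ (List.replicate (R - 1) 0 ++ (1 :: List.replicate (R - 1) 0)) <:+: diff u v :=
      huv _ (by
        unfold pats; simp only [List.mem_append]
        exact Or.inr (Or.inr (Or.inr (mem_D4.2 rfl))))
    have h4' : ¬ (List.replicate (R - 1) 0 ++ (1 :: List.replicate (R - 1) 0)) <:+: diff v u :=
      hvu _ (by
        unfold pats; simp only [List.mem_append]
        exact Or.inr (Or.inr (Or.inr (mem_D4.2 rfl))))
    have ha1 : ∀ x y, x < y → y < t → y < x + R → bit u x ≠ bit v x → bit u y ≠ bit v y →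
        (∀ z, x < z → z < y → bit u z = bit v z) → bit u y ≠ bit u x := by
      intro x y hxy hy hyR hx hy' hz he
      cases hux : bit u x with
      | true =>
        have hvx : bit v x = false := bne_true hx hux
        have huy : bit u y = true := by rw [he, hux]
        have hvy : bit v y = false := bne_true hy' huy
        apply h1 (y - x - 1) (by omega)
        rw [infix_two hu hv]
        refine ⟨x, y, by omega, hy, hux, hvx, ?_, hz⟩
        rw [bitDiff_eq_one]
        exact ⟨huy, hvy⟩
      | false =>
        have hvx : bit v x = true := bne_false hx hux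
        have huy : bit u y = false := by rw [he, hux]
        have hvy : bit v y = true := bne_false hy' huy
        apply h1' (y - x - 1) (by omega)
        rw [infix_two hv hu]
        refine ⟨x, y, by omega, hy, hvx, hux, ?_, fun z hz1 hz2 => (hz z hz1 hz2).symm⟩
        rw [bitDiff_eq_one]
        exact ⟨hvy, huy⟩
    refine ⟨ha1, ?_, ?_, ?_⟩
    · intro x y hxy hy hyR hx hy' hz
      have he := ha1 x y hxy hy hyR hx hy' hz
      by_contra hal
      have hal' : al (y - x - 1 + 1) = false := by
        rw [show y - x - 1 + 1 = y - x by omega]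
        simpa using hal
      cases hux : bit u x with
      | true =>
        have hvx : bit v x = false := bne_true hx hux
        have huy : bit u y = false := bne_true (Ne.symm he) hux
        have hvy : bit v y = true := bne_false hy' huy
        apply h2 (y - x - 1) (by omega) hal'
        rw [infix_two hu hv]
        refine ⟨x, y, by omega, hy, hux, hvx, ?_, hz⟩
        rw [bitDiff_eq_neg_one]
        exact ⟨huy, hvy⟩
      | false =>
        have hvx : bit v x = true := bne_false hx hux
        have huy : bit u y = true := bne_false (Ne.symm he) hux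
        have hvy : bit v y = false := bne_true hy' huy
        apply h2' (y - x - 1) (by omega) hal'
        rw [infix_two hv hu]
        refine ⟨x, y, by omega, hy, hvx, hux, ?_, fun z hz1 hz2 => (hz z hz1 hz2).symm⟩
        rw [bitDiff_eq_neg_one]
        exact ⟨hvy, huy⟩
    · intro x y z hxy hyz hz hzR hx hy hz' hw1 hw2
      have he1 := ha1 x y hxy (by omega) (by omega) hx hy hw1
      have he2 := ha1 y z hyz (by omega) (by omega) hy hz' hw2
      cases hux : bit u x with
      | true =>
        have hvx : bit v x = false := bne_true hx hux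
        have huy : bit u y = false := bne_true (Ne.symm he1) hux
        have hvy : bit v y = true := bne_false hy huy
        have huz : bit u z = true := bne_false (Ne.symm he2) huy
        have hvz : bit v z = false := bne_true hz' huz
        apply h3 (y - x - 1) (z - y - 1) (by omega)
        rw [infix_three hu hv]
        exact ⟨x, y, z, by omega, by omega, hz, hux, hvx, huy, hvy, huz, hvz, hw1, hw2⟩
      | false =>
        have hvx : bit v x = true := bne_false hx hux
        have huy : bit u y = true := bne_false (Ne.symm he1) hux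
        have hvy : bit v y = false := bne_true hy huy
        have huz : bit u z = false := bne_true (Ne.symm he2) huy
        have hvz : bit v z = true := bne_false hz' huz
        apply h3' (y - x - 1) (z - y - 1) (by omega)
        rw [infix_three hv hu]
        exact ⟨x, y, z, by omega, by omega, hz, hvx, hux, hvy, huy, hvz, huz,
          fun w h h' => (hw1 w h h').symm, fun w h h' => (hw2 w h h').symm⟩
    · intro x hx1 hx2 hx
      by_contra hcon
      push Not at hcon
      cases hux : bit u x with
      | true =>
        have hvx : bit v x = false := bne_true hx hux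
        apply h4
        rw [infix_four hu hv]
        exact ⟨x, by omega, by omega, hux, hvx, fun y h h' h'' =>
          hcon y h'' (by omega) (by omega)⟩
      | false =>
        have hvx : bit v x = true := bne_false hx hux
        apply h4'
        rw [infix_four hv hu]
        exact ⟨x, by omega, by omega, hvx, hux, fun y h h' h'' =>
          (hcon y h'' (by omega) (by omega)).symm⟩
  · intro hG
    constructor
    · intro d hd hdf
      unfold pats at hd
      simp only [List.mem_append] at hd
      rcases hd with hd | hd | hd | hd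
      · obtain ⟨a, ha, rfl⟩ := mem_D1.1 hd
        rw [infix_two hu hv] at hdf
        obtain ⟨x, y, rfl, hy, hux, hvx, hy', hz⟩ := hdf
        rw [bitDiff_eq_one] at hy'
        exact hG.a1 x _ (by omega) hy (by omega) (by rw [hux, hvx]; simp)
          (by rw [hy'.1, hy'.2]; simp) hz (by rw [hux, hy'.1])
      · obtain ⟨a, ha, ha', rfl⟩ := mem_D2.1 hd
        rw [infix_two hu hv] at hdf
        obtain ⟨x, y, rfl, hy, hux, hvx, hy', hz⟩ := hdf
        rw [bitDiff_eq_neg_one] at hy'
        have := hG.a2 x _ (by omega) hy (by omega) (by rw [hux, hvx]; simp)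
          (by rw [hy'.1, hy'.2]; simp) hz
        rw [show x + a + 1 - x = a + 1 by omega, ha'] at this
        exact absurd this (by simp)
      · obtain ⟨a, b, ha, rfl⟩ := mem_D3.1 hd
        rw [infix_three hu hv] at hdf
        obtain ⟨x, y, z, rfl, rfl, hz, h1, h2, h3, h4, h5, h6, h7, h8⟩ := hdf
        exact hG.a3 x _ _ (by omega) (by omega) hz (by omega) (by rw [h1, h2]; simp)
          (by rw [h3, h4]; simp) (by rw [h5, h6]; simp) h7 h8
      · rw [mem_D4.1 hd, infix_four hu hv] at hdf
        obtain ⟨x, h1, h2, h3, h4, h5⟩ := hdf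
        obtain ⟨y, hy1, hy2, hy3, hy4⟩ := hG.a4 x (by omega) (by omega) (by rw [h3, h4]; simp)
        exact hy4 (h5 y (by omega) (by omega) hy1)
    · intro d hd hdf
      unfold pats at hd
      simp only [List.mem_append] at hd
      rcases hd with hd | hd | hd | hd
      · obtain ⟨a, ha, rfl⟩ := mem_D1.1 hd
        rw [infix_two hv hu] at hdf
        obtain ⟨x, y, rfl, hy, hux, hvx, hy', hz⟩ := hdf
        rw [bitDiff_eq_one] at hy'
        exact hG.a1 x _ (by omega) hy (by omega) (by rw [hux, hvx]; simp)
          (by rw [hy'.1, hy'.2]; simp) (fun z h h' => (hz z h h').symm) (by rw [hvx, hy'.2])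
      · obtain ⟨a, ha, ha', rfl⟩ := mem_D2.1 hd
        rw [infix_two hv hu] at hdf
        obtain ⟨x, y, rfl, hy, hux, hvx, hy', hz⟩ := hdf
        rw [bitDiff_eq_neg_one] at hy'
        have := hG.a2 x _ (by omega) hy (by omega) (by rw [hux, hvx]; simp)
          (by rw [hy'.1, hy'.2]; simp) (fun z h h' => (hz z h h').symm)
        rw [show x + a + 1 - x = a + 1 by omega, ha'] at this
        exact absurd this (by simp)
      · obtain ⟨a, b, ha, rfl⟩ := mem_D3.1 hd
        rw [infix_three hv hu] at hdf
        obtain ⟨x, y, z, rfl, rfl, hz, h1, h2, h3, h4, h5, h6, h7, h8⟩ := hdf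
        exact hG.a3 x _ _ (by omega) (by omega) hz (by omega) (by rw [h1, h2]; simp)
          (by rw [h3, h4]; simp) (by rw [h5, h6]; simp) (fun w h h' => (h7 w h h').symm)
          (fun w h h' => (h8 w h h').symm)
      · rw [mem_D4.1 hd, infix_four hv hu] at hdf
        obtain ⟨x, h1, h2, h3, h4, h5⟩ := hdf
        obtain ⟨y, hy1, hy2, hy3, hy4⟩ := hG.a4 x (by omega) (by omega) (by rw [h3, h4]; simp)
        exact hy4 (h5 y (by omega) (by omega) hy1).symm

/-- Avoiding the patterns, at the level of letters. -/
theorem avoids_iff {R : ℕ} {al : ℕ → Bool} (hR : 1 ≤ R) {t : ℕ} {W : Finset (List Bool)}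
    (hW : ∀ w ∈ W, w.length = t) : Avoids (pats R al) W ↔
      ∀ u ∈ W, ∀ v ∈ W, u ≠ v → Good R al t (bit u) (bit v) := by
  constructor
  · intro h u hu v hv huv
    exact (not_infix_iff hR (hW u hu) (hW v hv)).1 ⟨h u hu v hv huv, h v hv u hu huv.symm⟩
  · intro h u hu v hv huv
    exact ((not_infix_iff hR (hW u hu) (hW v hv)).2 (h u hu v hv huv)).1

end Pool.Agent.H693R2.Cap
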