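import Pool.Agent.H693R2.Cap.Instance

/-!
# The reduction is computable in polynomial time
-/

set_option autoImplicit false

namespace Pool.Agent.NPC.H693Cap

open Pool.Agent.H693R2.Cap

/-- The code of a letter: `0`, `+`, `-` become `none`, `some true`, `some false`. -/
def signCode : SignType → Option Bool
  | 0 => none
  | 1 => some true
  | -1 => some false

instance : TEnc SignType := ⟨fun s => toT (signCode s), fun a b h => by
  have h1 := TEnc.inj h
  revert h1
  cases a <;> cases b <;> simp [signCode]⟩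

theorem kk_eq (φ : List Clause) : kk φ = (φ.length.bits.map (fun _ => ())).length + 1 := by
  unfold kk
  rw [List.length_map]

theorem poly_len : Poly (fun φ : List Clause => φ.length) := Poly.length Poly.id

theorem upoly_kk : UPoly kk :=
  (UPoly.add (UPoly.length (Poly.natBits poly_len)) (UPoly.const 1))

theorem poly_KK : Poly KK := by
  refine (Poly.valBits (l := fun φ : List Clause =>
    φ.length.bits.map (fun _ => false) ++ [false, true]) (Poly.append
      (Poly.map (F := fun _ _ => false) (Poly.natBits poly_len) (Poly.const false))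
      (Poly.const _))).congr fun φ => ?_
  rw [List.map_const']
  have h := valB_replicate_false (kk φ) true
  unfold KK
  rw [if_pos rfl, mul_one] at h
  rw [← h]
  unfold kk
  congr 1
  rw [List.replicate_succ', List.append_assoc]
  rfl

theorem KK_le (φ : List Clause) : KK φ ≤ 4 * φ.length + 2 := by
  unfold KK kk
  rw [Nat.size_eq_bits_len, pow_succ]
  rcases Nat.eq_zero_or_pos φ.length with h | h
  · rw [h]
    simp
  · have h1 : 0 < φ.length.size := Nat.size_pos.2 h
    have h2 : ¬ φ.length < 2 ^ (φ.length.size - 1) := by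
      intro hlt
      have := Nat.size_le.2 hlt
      omega
    have h3 : 2 ^ φ.length.size = 2 ^ (φ.length.size - 1) * 2 := by
      rw [← pow_succ]
      congr 1
      omega
    omega

theorem upoly_KK : UPoly KK :=
  UPoly.of_le poly_KK (UPoly.add (UPoly.mul (UPoly.const 4) (UPoly.length Poly.id))
    (UPoly.const 2)) KK_le

/-- The number of vertices. -/
def nn (φ : List Clause) : ℕ := 3 * KK φ

theorem upoly_nn : UPoly nn := UPoly.mul (UPoly.const 3) upoly_KK

theorem upoly_ruler {α : Type} [TEnc α] {n i : α → ℕ} (hn : UPoly n) (hi : UPoly i) :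
    UPoly (fun a => ruler (n a) (i a)) := by
  unfold ruler
  have h1 : UPoly (fun a => 3 * (n a * n a) + 1) :=
    UPoly.add (UPoly.mul (UPoly.const 3) (UPoly.mul hn hn)) (UPoly.const 1)
  exact UPoly.add (UPoly.add hi (UPoly.mul h1 (UPoly.mul hi hi)))
    (UPoly.mul (UPoly.mul h1 h1) (UPoly.mul (UPoly.mul hi hi) hi))

theorem poly_ruler {α : Type} [TEnc α] {n i : α → ℕ} (hn : Poly n) (hi : Poly i) :
    Poly (fun a => ruler (n a) (i a)) := by
  unfold ruler
  have h1 : Poly (fun a => 3 * (n a * n a) + 1) :=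
    Poly.add (Poly.mul (Poly.const 3) (Poly.mul hn hn)) (Poly.const 1)
  exact Poly.add (Poly.add hi (Poly.mul h1 (Poly.mul hi hi)))
    (Poly.mul (Poly.mul h1 h1) (Poly.mul (Poly.mul hi hi) hi))

theorem upoly_GG : UPoly GG := UPoly.add (upoly_ruler upoly_nn upoly_nn) (UPoly.const 1)

theorem upoly_MM : UPoly MM :=
  UPoly.mul upoly_KK (UPoly.add (UPoly.add upoly_GG (UPoly.mul (UPoly.const 3) upoly_kk))
    (UPoly.const 1))

theorem upoly_RR : UPoly RR :=
  UPoly.of_le (Poly.sub (Poly.mul upoly_kk.toPoly upoly_MM.toPoly) upoly_GG.toPoly)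
    (UPoly.mul upoly_kk upoly_MM) (fun _ => Nat.sub_le _ _)

section

variable {α : Type} [TEnc α]

theorem poly_cl {f : α → List Clause} {w : α → ℕ} (hf : Poly f) (hw : Poly w) :
    Poly (fun a => cl (f a) (w a)) :=
  Poly.getD hf hw (Poly.const taut)

theorem poly_lit {f : α → List Clause} {j : α → ℕ} (hf : Poly f) (hj : Poly j) :
    Poly (fun a => lit (f a) (j a)) := by
  unfold lit
  have hc : Poly (fun a => cl (f a) (j a / 3)) := poly_cl hf (Poly.div hj (Poly.const 3))
  have hm : Poly (fun a => j a % 3) := Poly.mod hj (Poly.const 3)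
  exact Poly.ite (Poly.decide_eq hm (Poly.const 0)) (Poly.fst hc)
    (Poly.ite (Poly.decide_eq hm (Poly.const 1)) (Poly.fst (Poly.snd hc))
      (Poly.snd (Poly.snd hc)))

theorem poly_na {f : α → List Clause} {i j : α → ℕ} (hf : Poly f) (hi : Poly i) (hj : Poly j) :
    Poly (fun a => na (f a) (i a) (j a)) := by
  unfold na
  have hn : Poly (fun a => 3 * KK (f a)) := Poly.mul (Poly.const 3) (poly_KK.comp hf)
  have hli := poly_lit hf hi
  have hlj := poly_lit hf hj
  exact Poly.and (Poly.decide_lt hi hn) (Poly.and (Poly.decide_lt hj hn) (Poly.and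
    (Poly.not (Poly.decide_eq (Poly.div hi (Poly.const 3)) (Poly.div hj (Poly.const 3))))
    (Poly.or (Poly.not (Poly.decide_eq (Poly.snd hli) (Poly.snd hlj)))
      (Poly.decide_eq (Poly.fst hli) (Poly.fst hlj)))))

theorem poly_al {f : α → List Clause} {e : α → ℕ} (hf : Poly f) (he : Poly e) :
    Poly (fun a => al (f a) (e a)) := by
  unfold al
  have hr : Poly (fun a => List.range (3 * KK (f a))) := (upoly_nn.comp hf).range
  refine Poly.any hr (Poly.any (hr.comp (Poly.fst Poly.id)) ?_)
  -- the context is `((a, i), j)`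
  have hfa : Poly (fun q : (α × ℕ) × ℕ => f q.1.1) := hf.comp (Poly.fst (Poly.fst Poly.id))
  have hea : Poly (fun q : (α × ℕ) × ℕ => e q.1.1) := he.comp (Poly.fst (Poly.fst Poly.id))
  have hi : Poly (fun q : (α × ℕ) × ℕ => q.1.2) := Poly.snd (Poly.fst Poly.id)
  have hj : Poly (fun q : (α × ℕ) × ℕ => q.2) := Poly.snd Poly.id
  have hn : Poly (fun q : (α × ℕ) × ℕ => 3 * KK (f q.1.1)) :=
    Poly.mul (Poly.const 3) (poly_KK.comp hfa)
  exact Poly.and (poly_na hfa hi hj) (Poly.decide_eq (Poly.add (poly_ruler hn hi) hea)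
    (poly_ruler hn hj))

theorem poly_zeros {R a : α → ℕ} (hR : UPoly R) (ha : Poly a) :
    Poly (fun x => zeros (R x) (a x)) := by
  unfold zeros
  exact Poly.map (F := fun _ _ => (0 : SignType)) (Poly.filter (p := fun x i => decide (i < a x))
    hR.range (Poly.decide_lt (Poly.snd Poly.id) (ha.comp (Poly.fst Poly.id)))) (Poly.const _)

end

theorem poly_D1 : Poly (fun φ => D1 (RR φ)) := by
  unfold D1
  have hr : Poly (fun φ => List.range (RR φ)) := upoly_RR.range
  have hR : Poly (fun q : List Clause × ℕ => RR q.1) := upoly_RR.toPoly.comp (Poly.fst Poly.id)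
  refine Poly.map (F := fun φ a => 1 :: (zeros (RR φ) a ++ [1]))
    (Poly.filter (p := fun φ a => decide (a + 1 < RR φ)) hr
      (Poly.decide_lt (Poly.add (Poly.snd Poly.id) (Poly.const 1)) hR)) ?_
  exact Poly.cons (Poly.const _) (Poly.append
    (poly_zeros (upoly_RR.comp (Poly.fst Poly.id)) (Poly.snd Poly.id)) (Poly.const _))

theorem poly_D2 : Poly (fun φ => D2 (RR φ) (al φ)) := by
  unfold D2
  have hr : Poly (fun φ => List.range (RR φ)) := upoly_RR.range
  have hR : Poly (fun q : List Clause × ℕ => RR q.1) := upoly_RR.toPoly.comp (Poly.fst Poly.id)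
  have ha : Poly (fun q : List Clause × ℕ => q.2 + 1) :=
    Poly.add (Poly.snd Poly.id) (Poly.const 1)
  refine Poly.map (F := fun φ a => 1 :: (zeros (RR φ) a ++ [-1]))
    (Poly.filter (p := fun φ a => decide (a + 1 < RR φ) && !(al φ (a + 1))) hr
      (Poly.and (Poly.decide_lt ha hR) (Poly.not (poly_al (Poly.fst Poly.id) ha)))) ?_
  exact Poly.cons (Poly.const _) (Poly.append
    (poly_zeros (upoly_RR.comp (Poly.fst Poly.id)) (Poly.snd Poly.id)) (Poly.const _))

theorem poly_D3 : Poly (fun φ => D3 (RR φ)) := by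
  unfold D3
  have hr : Poly (fun φ => List.range (RR φ)) := upoly_RR.range
  refine Poly.flatMap (F := fun φ a => ((List.range (RR φ)).filter
    (fun b => decide (a + b + 2 < RR φ))).map
      (fun b => 1 :: (zeros (RR φ) a ++ (-1 :: (zeros (RR φ) b ++ [1]))))) hr ?_
  refine Poly.map (F := fun (q : List Clause × ℕ) b =>
    1 :: (zeros (RR q.1) q.2 ++ (-1 :: (zeros (RR q.1) b ++ [1]))))
    (Poly.filter (p := fun (q : List Clause × ℕ) b => decide (q.2 + b + 2 < RR q.1))
      (hr.comp (Poly.fst Poly.id)) ?_) ?_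
  · exact Poly.decide_lt (Poly.add (Poly.add (Poly.snd (Poly.fst Poly.id)) (Poly.snd Poly.id))
      (Poly.const 2)) (upoly_RR.toPoly.comp (Poly.fst (Poly.fst Poly.id)))
  · have hR : UPoly (fun q : (List Clause × ℕ) × ℕ => RR q.1.1) :=
      upoly_RR.comp (Poly.fst (Poly.fst Poly.id))
    exact Poly.cons (Poly.const _) (Poly.append (poly_zeros hR (Poly.snd (Poly.fst Poly.id)))
      (Poly.cons (Poly.const _) (Poly.append (poly_zeros hR (Poly.snd Poly.id)) (Poly.const _))))

theorem poly_D4 : Poly (fun φ => D4 (RR φ)) := by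
  unfold D4
  have h : Poly (fun φ => zeros (RR φ) (RR φ - 1)) :=
    poly_zeros upoly_RR (Poly.sub upoly_RR.toPoly (Poly.const 1))
  exact Poly.cons (Poly.append h (Poly.cons (Poly.const _) h)) (Poly.const _)

theorem poly_inst : Poly inst :=
  Poly.append poly_D1 (Poly.append poly_D2 (Poly.append poly_D3 poly_D4))

end Pool.Agent.NPC.H693Cap
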