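import Pool.Agent.H693R2.Cap.Pats

/-!
# The upper bound for the capacity
-/

set_option autoImplicit false

namespace Pool.Agent.H693R2.Cap

open Filter

theorem first_pair {R : ℕ} {al : ℕ → Bool} {t : ℕ} {f g : ℕ → Bool}
    (hG : Good R al t f g) {p e : ℕ} (hp : R ≤ p) (he : e + R ≤ t)
    (hpre : ∀ i, i < p → f i = g i) (hsuf : ∀ i, e ≤ i → f i = g i) (hne : ∃ i, f i ≠ g i) :
    ∃ x y, p ≤ x ∧ x < e ∧ x < y ∧ y < x + R ∧ (∀ i, i < x → f i = g i) ∧ f x ≠ g x ∧
      f y ≠ g y ∧ f y ≠ f x ∧ al (y - x) = true ∧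
      ∀ i, x < i → i < x + R → i ≠ y → f i = g i := by
  classical
  obtain ⟨x, hx, hxmin⟩ : ∃ x, f x ≠ g x ∧ ∀ i, i < x → f i = g i :=
    ⟨Nat.find hne, Nat.find_spec hne, fun i hi => not_not.1 (Nat.find_min hne hi)⟩
  have hpx : p ≤ x := by
    by_contra h
    exact hx (hpre x (by omega))
  have hxe : x < e := by
    by_contra h
    exact hx (hsuf x (by omega))
  obtain ⟨y0, hy0x, hy0R, _, hy0⟩ := hG.a4 x (by omega) (by omega) hx
  have hxy0 : x < y0 := by
    by_contra h
    exact hy0 (hxmin y0 (by omega))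
  have hex : ∃ y, x < y ∧ f y ≠ g y := ⟨y0, hxy0, hy0⟩
  obtain ⟨y, ⟨hxy, hy⟩, hymin⟩ : ∃ y, (x < y ∧ f y ≠ g y) ∧ ∀ i, i < y → ¬ (x < i ∧ f i ≠ g i) :=
    ⟨Nat.find hex, Nat.find_spec hex, fun i hi => Nat.find_min hex hi⟩
  have hyy0 : y ≤ y0 := by
    by_contra h
    exact hymin y0 (by omega) ⟨hxy0, hy0⟩
  have hbet : ∀ z, x < z → z < y → f z = g z := by
    intro z h1 h2
    by_contra h
    exact hymin z h2 ⟨h1, h⟩
  have hye : y < e := by
    by_contra h
    exact hy (hsuf y (by omega))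
  refine ⟨x, y, hpx, hxe, hxy, by omega, hxmin, hx, hy,
    hG.a1 x y hxy (by omega) (by omega) hx hy hbet, hG.a2 x y hxy (by omega) (by omega) hx hy hbet,
    ?_⟩
  intro i h1 h2 h3
  by_contra hi
  have hyi : y < i := by
    by_contra h
    exact hymin i (by omega) ⟨h1, hi⟩
  have hex2 : ∃ z, y < z ∧ f z ≠ g z := ⟨i, hyi, hi⟩
  obtain ⟨z, ⟨hyz, hz⟩, hzmin⟩ : ∃ z, (y < z ∧ f z ≠ g z) ∧ ∀ i, i < z → ¬ (y < i ∧ f i ≠ g i) :=
    ⟨Nat.find hex2, Nat.find_spec hex2, fun i hi => Nat.find_min hex2 hi⟩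
  have hzi : z ≤ i := by
    by_contra h
    exact hzmin i (by omega) ⟨hyi, hi⟩
  have hze : z < e := by
    by_contra h
    exact hz (hsuf z (by omega))
  refine hG.a3 x y z hxy hyz (by omega) (by omega) hx hy hz hbet ?_
  intro w h4 h5
  by_contra h
  exact hzmin w h5 ⟨h4, h⟩

/-- Restriction of a function to `[0, m)`. -/
def restr (m : ℕ) (f : ℕ → Bool) : ℕ → Bool := fun i => if i < m then f i else false

theorem restr_of_lt {m i : ℕ} (f : ℕ → Bool) (h : i < m) : restr m f i = f i := by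
  simp [restr, h]

theorem restr_of_ge {m i : ℕ} (f : ℕ → Bool) (h : m ≤ i) : restr m f i = false := by
  simp [restr, h]

open Classical in
theorem class_pair {R : ℕ} {al : ℕ → Bool} {t : ℕ} {F : Finset (ℕ → Bool)}
    (hG : ∀ f ∈ F, ∀ g ∈ F, f ≠ g → Good R al t f g) {p e : ℕ} (hp : R ≤ p) (he : e + R ≤ t)
    (hpre : ∀ f ∈ F, ∀ g ∈ F, ∀ i, i < p → f i = g i)
    (hsuf : ∀ f ∈ F, ∀ g ∈ F, ∀ i, e ≤ i → f i = g i) :
    ∀ u ∈ F.image (restr (p + R)), ∀ v ∈ F.image (restr (p + R)), u ≠ v →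
      ∃ x y, p ≤ x ∧ x < p + R ∧ x < y ∧ y < x + R ∧ al (y - x) = true ∧ u x ≠ v x ∧
        (y < p + R → u y ≠ v y ∧ u y ≠ u x) ∧ ∀ i, i ≠ x → i ≠ y → u i = v i := by
  intro u hu v hv huv
  rw [Finset.mem_image] at hu hv
  obtain ⟨f, hf, rfl⟩ := hu
  obtain ⟨g, hg, rfl⟩ := hv
  have hfg : ∃ i, i < p + R ∧ f i ≠ g i := by
    by_contra h
    push Not at h
    apply huv
    funext i
    unfold restr
    split_ifs with hi
    · exact h i hi
    · rfl
  obtain ⟨i0, hi0, hfgi0⟩ := hfg
  have hne : f ≠ g := fun h => hfgi0 (by rw [h])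
  obtain ⟨x, y, h1, h2, h3, h4, h5, h6, h7, h8, h9, h10⟩ :=
    first_pair (hG f hf g hg hne) hp he (hpre f hf g hg) (hsuf f hf g hg) ⟨i0, hfgi0⟩
  have hxi0 : x ≤ i0 := by
    by_contra h
    exact hfgi0 (h5 i0 (by omega))
  refine ⟨x, y, h1, by omega, h3, h4, h9, ?_, ?_, ?_⟩
  · rw [restr_of_lt f (by omega), restr_of_lt g (by omega)]
    exact h6
  · intro hy
    rw [restr_of_lt f hy, restr_of_lt g hy, restr_of_lt f (by omega : x < p + R)]
    exact ⟨h7, h8⟩
  · intro i hix hiy
    by_cases hi : i < p + R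
    · rw [restr_of_lt f hi, restr_of_lt g hi]
      rcases Nat.lt_or_ge i x with h | h
      · exact h5 i h
      · exact h10 i (by omega) (by omega) hiy
    · rw [restr_of_ge f (by omega), restr_of_ge g (by omega)]

theorem bool_eq_of_ne {a b c : Bool} (h1 : a ≠ c) (h2 : b ≠ c) : a = b := by
  cases a <;> cases b <;> cases c <;> simp_all

/-- The combinatorial core: sets of functions in which any two differ in a pair of positions. -/
theorem class_core {R : ℕ} {al : ℕ → Bool} {X : Finset (ℕ → Bool)} {p : ℕ}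
    (hX : ∀ u ∈ X, ∀ v ∈ X, u ≠ v →
      ∃ x y, p ≤ x ∧ x < p + R ∧ x < y ∧ y < x + R ∧ al (y - x) = true ∧ u x ≠ v x ∧
        (y < p + R → u y ≠ v y ∧ u y ≠ u x) ∧ ∀ i, i ≠ x → i ≠ y → u i = v i)
    {u0 v0 : ℕ → Bool} (hu0 : u0 ∈ X) (hv0 : v0 ∈ X) (hut : u0 p = true) (hvt : v0 p = false) :
    ∃ Z : Finset ℤ, Z.card = X.card ∧
      ∀ z ∈ Z, ∀ z' ∈ Z, z ≠ z' → al (z' - z).natAbs = true := by
  classical
  have hq : ∀ u ∈ X, ∀ v ∈ X, u p ≠ v p → ∃ y, p < y ∧ y < p + R ∧ al (y - p) = true ∧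
      u y ≠ v y ∧ u y ≠ u p ∧ ∀ i, i ≠ p → i ≠ y → u i = v i := by
    intro u hu v hv hne
    obtain ⟨x, y, h1, h2, h3, h4, h5, h6, h7, h8⟩ := hX u hu v hv (fun h => hne (by rw [h]))
    have hxp : x = p := by
      by_contra h
      exact hne (h8 p (fun h' => h h'.symm) (by omega))
    subst hxp
    exact ⟨y, h3, h4, h5, (h7 h4).1, (h7 h4).2, h8⟩
  have hcase : ∃ w0 ∈ X, ∀ w ∈ X, w p = w0 p → w = w0 := by
    by_contra hcon
    push Not at hcon
    obtain ⟨u1, hu1, hu1p, hu1ne⟩ := hcon u0 hu0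
    obtain ⟨v1, hv1, hv1p, hv1ne⟩ := hcon v0 hv0
    rw [hut] at hu1p
    rw [hvt] at hv1p
    obtain ⟨a, a1, a2, a3, a4, a5, a6⟩ := hq u0 hu0 v0 hv0 (by rw [hut, hvt]; simp)
    obtain ⟨b, b1, b2, b3, b4, b5, b6⟩ := hq u0 hu0 v1 hv1 (by rw [hut, hv1p]; simp)
    obtain ⟨c, c1, c2, c3, c4, c5, c6⟩ := hq u1 hu1 v0 hv0 (by rw [hu1p, hvt]; simp)
    obtain ⟨d, d1, d2, d3, d4, d5, d6⟩ := hq u1 hu1 v1 hv1 (by rw [hu1p, hv1p]; simp)
    have hab : a ≠ b := by
      rintro rfl
      apply hv1ne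
      funext i
      by_cases hip : i = p
      · rw [hip, hvt, hv1p]
      · by_cases hia : i = a
        · rw [hia]
          exact bool_eq_of_ne b4.symm a4.symm
        · rw [← b6 i hip hia, ← a6 i hip hia]
    have hac : a ≠ c := by
      rintro rfl
      apply hu1ne
      funext i
      by_cases hip : i = p
      · rw [hip, hut, hu1p]
      · by_cases hia : i = a
        · rw [hia]
          exact bool_eq_of_ne c4 a4
        · rw [c6 i hip hia, a6 i hip hia]
    have e1 : u1 a = v0 a := c6 a (by omega) hac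
    have e2 : u0 a = v1 a := b6 a (by omega) hab
    have had : a = d := by
      by_contra h
      have e3 := d6 a (by omega) h
      exact a4 (by rw [e2, ← e3, e1])
    subst had
    rw [hu1p] at d5
    rw [hut] at a5
    apply a4
    rw [← e1]
    exact bool_eq_of_ne a5 d5
  obtain ⟨w0, hw0, huniq⟩ := hcase
  have hq' : ∀ v : ℕ → Bool, ∃ y, v ∈ X.erase w0 → p < y ∧ y < p + R ∧ al (y - p) = true ∧
      w0 y ≠ v y ∧ w0 y ≠ w0 p ∧ ∀ i, i ≠ p → i ≠ y → w0 i = v i := by
    intro v
    by_cases hv : v ∈ X.erase w0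
    · rw [Finset.mem_erase] at hv
      obtain ⟨y, hy⟩ := hq w0 hw0 v hv.2 (fun h => hv.1 (huniq v hv.2 h.symm))
      exact ⟨y, fun _ => hy⟩
    · exact ⟨0, fun h => absurd h hv⟩
  choose q hq' using hq'
  have hvp : ∀ v ∈ X.erase w0, v p ≠ w0 p := fun v hv h =>
    (Finset.mem_erase.1 hv).1 (huniq v (Finset.mem_erase.1 hv).2 h)
  have hinj : ∀ v ∈ X.erase w0, ∀ v' ∈ X.erase w0, q v = q v' → v = v' := by
    intro v hv v' hv' hqq
    obtain ⟨_, _, _, h1, _, h2⟩ := hq' v hv
    obtain ⟨_, _, _, h1', _, h2'⟩ := hq' v' hv'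
    funext i
    by_cases hip : i = p
    · rw [hip]
      exact bool_eq_of_ne (hvp v hv) (hvp v' hv')
    · by_cases hiq : i = q v
      · rw [hiq]
        refine bool_eq_of_ne h1.symm ?_
        rw [hqq]
        exact h1'.symm
      · rw [← h2 i hip hiq, ← h2' i hip (by rw [← hqq]; exact hiq)]
  refine ⟨insert (p : ℤ) ((X.erase w0).image (fun v => (q v : ℤ))), ?_, ?_⟩
  · rw [Finset.card_insert_of_notMem, Finset.card_image_of_injOn, Finset.card_erase_of_mem hw0]
    · have : 0 < X.card := Finset.card_pos.2 ⟨w0, hw0⟩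
      omega
    · intro v hv v' hv' h
      have h' : ((q v : ℕ) : ℤ) = (q v' : ℕ) := h
      exact hinj v hv v' hv' (by exact_mod_cast h')
    · intro h
      rw [Finset.mem_image] at h
      obtain ⟨v, hv, h⟩ := h
      have := (hq' v hv).1
      omega
  · have hpq : ∀ v ∈ X.erase w0, al (((q v : ℤ) - p).natAbs) = true ∧
        al (((p : ℤ) - q v).natAbs) = true := by
      intro v hv
      obtain ⟨h1, _, h3, _⟩ := hq' v hv
      have e1 : ((q v : ℤ) - p).natAbs = q v - p := by omega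
      have e2 : ((p : ℤ) - q v).natAbs = q v - p := by omega
      rw [e1, e2]
      exact ⟨h3, h3⟩
    have hqq : ∀ v ∈ X.erase w0, ∀ v' ∈ X.erase w0, v ≠ v' →
        al (((q v' : ℤ) - q v).natAbs) = true := by
      intro v hv v' hv' hne
      have hne' : q v ≠ q v' := fun h => hne (hinj v hv v' hv' h)
      obtain ⟨g1, g2, _, h1, _, h2⟩ := hq' v hv
      obtain ⟨g1', g2', _, h1', _, h2'⟩ := hq' v' hv'
      obtain ⟨x, y, k1, k2, k3, k4, k5, k6, k7, k8⟩ := hX v (Finset.mem_erase.1 hv).2 v'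
        (Finset.mem_erase.1 hv').2 hne
      have m1 : q v = x ∨ q v = y := by
        by_contra h
        push Not at h
        have e1 := k8 (q v) h.1 h.2
        have e2 := h2' (q v) (by omega) hne'
        exact h1 (by rw [e2, e1])
      have m2 : q v' = x ∨ q v' = y := by
        by_contra h
        push Not at h
        have e1 := k8 (q v') h.1 h.2
        have e2 := h2 (q v') (by omega) (Ne.symm hne')
        exact h1' (by rw [e2, e1])
      have e : ((q v' : ℤ) - q v).natAbs = y - x := by omega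
      rw [e]
      exact k5
    intro z hz z' hz' hne
    rw [Finset.mem_insert, Finset.mem_image] at hz hz'
    rcases hz with rfl | ⟨v, hv, rfl⟩
    · rcases hz' with rfl | ⟨v', hv', rfl⟩
      · exact absurd rfl hne
      · exact (hpq v' hv').1
    · rcases hz' with rfl | ⟨v', hv', rfl⟩
      · exact (hpq v hv).2
      · exact hqq v hv v' hv' (fun h => hne (by rw [h]))

/-- The induction over windows. -/
theorem upper_fun {R : ℕ} {al : ℕ → Bool} {t N : ℕ} (hN : 1 ≤ N)
    (hcl : ∀ Z : Finset ℤ, (∀ z ∈ Z, ∀ z' ∈ Z, z ≠ z' → al (z' - z).natAbs = true) → Z.card ≤ N)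
    {e : ℕ} (he : e + R ≤ t) : ∀ (m : ℕ) (F : Finset (ℕ → Bool)) (s : ℕ), R ≤ s →
    (∀ f ∈ F, ∀ g ∈ F, f ≠ g → Good R al t f g) →
    (∀ f ∈ F, ∀ g ∈ F, ∀ i, i < s → f i = g i) →
    (∀ f ∈ F, ∀ g ∈ F, ∀ i, e ≤ i → f i = g i) → e ≤ s + m * R → F.card ≤ N ^ m := by
  classical
  intro m
  induction m with
  | zero =>
    intro F s hs hG hpre hsuf hle
    rw [pow_zero, Finset.card_le_one]
    intro f hf g hg
    funext i
    rcases Nat.lt_or_ge i s with h | h
    · exact hpre f hf g hg i h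
    · exact hsuf f hf g hg i (by omega)
  | succ m ih =>
    intro F s hs hG hpre hsuf hle
    by_cases hall : ∃ i, ∃ f ∈ F, ∃ g ∈ F, f i ≠ g i
    swap
    · push Not at hall
      have : F.card ≤ 1 := by
        rw [Finset.card_le_one]
        intro f hf g hg
        funext i
        exact hall i f hf g hg
      exact this.trans (Nat.one_le_pow _ _ hN)
    obtain ⟨p, ⟨f0, hf0, g0, hg0, hfg⟩, hmin⟩ : ∃ p, (∃ f ∈ F, ∃ g ∈ F, f p ≠ g p) ∧
        ∀ i, i < p → ¬ ∃ f ∈ F, ∃ g ∈ F, f i ≠ g i :=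
      ⟨Nat.find hall, Nat.find_spec hall, fun i hi => Nat.find_min hall hi⟩
    have hpre' : ∀ f ∈ F, ∀ g ∈ F, ∀ i, i < p → f i = g i := by
      intro f hf g hg i hi
      by_contra h
      exact hmin i hi ⟨f, hf, g, hg, h⟩
    have hsp : s ≤ p := by
      by_contra h
      exact hfg (hpre f0 hf0 g0 hg0 p (by omega))
    have hX := class_pair hG (hs.trans hsp) he hpre' hsuf
    have hR : 0 < R := by
      by_contra h
      have hpe : p < e := by
        by_contra h'
        exact hfg (hsuf f0 hf0 g0 hg0 p (by omega))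
      have hR0 : R = 0 := by omega
      subst hR0
      obtain ⟨y, _, h1, h2, _⟩ := (hG f0 hf0 g0 hg0 (fun h => hfg (by rw [h]))).a4 p (by omega)
        (by omega) hfg
      omega
    have hcard : (F.image (restr (p + R))).card ≤ N := by
      have key : ∃ Z : Finset ℤ, Z.card = (F.image (restr (p + R))).card ∧
          ∀ z ∈ Z, ∀ z' ∈ Z, z ≠ z' → al (z' - z).natAbs = true := by
        have hm1 : restr (p + R) f0 ∈ F.image (restr (p + R)) := Finset.mem_image_of_mem _ hf0
        have hm2 : restr (p + R) g0 ∈ F.image (restr (p + R)) := Finset.mem_image_of_mem _ hg0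
        cases hfp : f0 p with
        | true =>
          refine class_core hX hm1 hm2 ?_ ?_
          · rw [restr_of_lt _ (by omega), hfp]
          · rw [restr_of_lt _ (by omega)]
            exact bne_true hfg hfp
        | false =>
          refine class_core hX hm2 hm1 ?_ ?_
          · rw [restr_of_lt _ (by omega)]
            exact bne_false hfg hfp
          · rw [restr_of_lt _ (by omega), hfp]
      obtain ⟨Z, hZ1, hZ2⟩ := key
      rw [← hZ1]
      exact hcl Z hZ2
    have hfib : ∀ b ∈ F.image (restr (p + R)), (F.filter (fun f => restr (p + R) f = b)).card ≤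
        N ^ m := by
      intro b _
      apply ih _ (p + R) (by omega)
      · intro f hf g hg hne
        exact hG f (Finset.mem_filter.1 hf).1 g (Finset.mem_filter.1 hg).1 hne
      · intro f hf g hg i hi
        have h1 := (Finset.mem_filter.1 hf).2
        have h2 := (Finset.mem_filter.1 hg).2
        have h3 := congrFun (h1.trans h2.symm) i
        rwa [restr_of_lt _ hi, restr_of_lt _ hi] at h3
      · intro f hf g hg
        exact hsuf f (Finset.mem_filter.1 hf).1 g (Finset.mem_filter.1 hg).1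
      · rw [Nat.succ_mul] at hle
        omega
    calc F.card ≤ N ^ m * (F.image (restr (p + R))).card :=
          Finset.card_le_mul_card_image _ _ hfib
      _ ≤ N ^ m * N := Nat.mul_le_mul_left _ hcard
      _ = N ^ (m + 1) := (pow_succ N m).symm

theorem bit_take {w : List Bool} {R i : ℕ} (h : i < R) : bit (w.take R) i = bit w i := by
  unfold bit
  rw [List.getD_eq_getElem?_getD, List.getD_eq_getElem?_getD, List.getElem?_take_of_lt h]

theorem bit_drop {w : List Bool} {s i : ℕ} : bit (w.drop s) i = bit w (s + i) := by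
  unfold bit
  rw [List.getD_eq_getElem?_getD, List.getD_eq_getElem?_getD, List.getElem?_drop]

/-- The upper bound for `δ_t`. -/
theorem delta_upper {R : ℕ} {al : ℕ → Bool} {N : ℕ} (hR : 1 ≤ R) (hN : 1 ≤ N)
    (hcl : ∀ Z : Finset ℤ, (∀ z ∈ Z, ∀ z' ∈ Z, z ≠ z' → al (z' - z).natAbs = true) → Z.card ≤ N)
    (t : ℕ) : delta (pats R al) t ≤ 2 ^ (2 * R) * N ^ (t / R + 1) := by
  classical
  rcases Nat.lt_or_ge t (2 * R) with ht | ht
  · calc delta (pats R al) t ≤ 2 ^ t := delta_le_two_pow _ _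
      _ ≤ 2 ^ (2 * R) := Nat.pow_le_pow_right (by norm_num) ht.le
      _ ≤ 2 ^ (2 * R) * N ^ (t / R + 1) := Nat.le_mul_of_pos_right _ (Nat.pow_pos hN)
  refine delta_le fun W hW hD => ?_
  rw [avoids_iff hR hW] at hD
  have himg : (W.image (fun w => w.take R ++ w.drop (t - R))).card ≤ 2 ^ (2 * R) := by
    apply card_le_two_pow
    intro w hw
    rw [Finset.mem_image] at hw
    obtain ⟨v, hv, rfl⟩ := hw
    rw [List.length_append, List.length_take, List.length_drop, hW v hv]
    omega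
  have hfib : ∀ b ∈ W.image (fun w => w.take R ++ w.drop (t - R)),
      (W.filter (fun w => w.take R ++ w.drop (t - R) = b)).card ≤ N ^ (t / R + 1) := by
    intro b _
    have hinj : Set.InjOn bit
        (W.filter (fun w => w.take R ++ w.drop (t - R) = b) : Finset (List Bool)) := by
      intro u hu v hv huv
      simp only [Finset.coe_filter, Set.mem_ofPred_eq] at hu hv
      exact bit_ext ((hW u hu.1).trans (hW v hv.1).symm) (congrFun huv)
    rw [← Finset.card_image_of_injOn hinj]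
    have hsplit : ∀ u ∈ W.filter (fun w => w.take R ++ w.drop (t - R) = b),
        ∀ v ∈ W.filter (fun w => w.take R ++ w.drop (t - R) = b),
        u.take R = v.take R ∧ u.drop (t - R) = v.drop (t - R) := by
      intro u hu v hv
      rw [Finset.mem_filter] at hu hv
      have h := hu.2.trans hv.2.symm
      apply List.append_inj h
      rw [List.length_take, List.length_take, hW u hu.1, hW v hv.1]
    apply upper_fun (t := t) hN hcl (e := t - R) (by omega) (t / R + 1) _ R le_rfl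
    · intro f hf g hg hne
      rw [Finset.mem_image] at hf hg
      obtain ⟨u, hu, rfl⟩ := hf
      obtain ⟨v, hv, rfl⟩ := hg
      exact hD u (Finset.mem_filter.1 hu).1 v (Finset.mem_filter.1 hv).1
        (fun h => hne (by rw [h]))
    · intro f hf g hg i hi
      rw [Finset.mem_image] at hf hg
      obtain ⟨u, hu, rfl⟩ := hf
      obtain ⟨v, hv, rfl⟩ := hg
      rw [← bit_take hi, ← bit_take (w := v) hi, (hsplit u hu v hv).1]
    · intro f hf g hg i hi
      rw [Finset.mem_image] at hf hg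
      obtain ⟨u, hu, rfl⟩ := hf
      obtain ⟨v, hv, rfl⟩ := hg
      obtain ⟨c, rfl⟩ := Nat.exists_eq_add_of_le hi
      rw [← bit_drop, ← bit_drop (w := v), (hsplit u hu v hv).2]
    · have h1 := Nat.div_add_mod t R
      have h2 := Nat.mod_lt t hR
      have h3 : (t / R + 1) * R = R * (t / R) + R := by ring
      omega
  calc W.card ≤ N ^ (t / R + 1) * (W.image (fun w => w.take R ++ w.drop (t - R))).card :=
        Finset.card_le_mul_card_image _ _ hfib
    _ ≤ N ^ (t / R + 1) * 2 ^ (2 * R) := Nat.mul_le_mul_left _ himg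
    _ = 2 ^ (2 * R) * N ^ (t / R + 1) := mul_comm _ _

/-- From bounds on `δ_t` to a bound on the capacity. -/
theorem cap_le_of_delta {D : List (List SignType)} {R N : ℕ} (hR : 1 ≤ R) (hN : 1 ≤ N)
    (h : ∀ t, delta D t ≤ 2 ^ (2 * R) * N ^ (t / R + 1)) : cap D ≤ Real.logb 2 N / R := by
  have hR' : (0 : ℝ) < R := by exact_mod_cast hR
  have hL : 0 ≤ Real.logb 2 (N : ℝ) := Real.logb_nonneg (by norm_num) (by exact_mod_cast hN)
  have hbound : ∀ t : ℕ, 0 < t → Real.logb 2 (delta D t) / t ≤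
      (2 * R + Real.logb 2 N) / t + Real.logb 2 N / R := by
    intro t ht
    have ht' : (0 : ℝ) < t := by exact_mod_cast ht
    have h1 : (delta D t : ℝ) ≤ 2 ^ (2 * R) * (N : ℝ) ^ (t / R + 1) := by exact_mod_cast h t
    have h2 := Real.logb_le_logb_of_le (b := 2) (by norm_num)
      (by exact_mod_cast one_le_delta D t) h1
    have hN' : (0 : ℝ) < N := by exact_mod_cast hN
    rw [Real.logb_mul (by positivity) (by positivity), Real.logb_pow, Real.logb_pow,
      Real.logb_self_eq_one (by norm_num)] at h2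
    have h3 : (((t / R : ℕ) : ℝ)) ≤ t / R := Nat.cast_div_le
    have h4 : Real.logb 2 (delta D t) ≤ 2 * R + (t / R + 1) * Real.logb 2 N := by
      refine h2.trans ?_
      push_cast
      have := mul_le_mul_of_nonneg_right h3 hL
      linarith
    rw [div_le_iff₀ ht']
    calc Real.logb 2 (delta D t) ≤ 2 * R + (t / R + 1) * Real.logb 2 N := h4
      _ = ((2 * R + Real.logb 2 N) / t + Real.logb 2 N / R) * t := by
        field_simp
        ring
  have hlim : Tendsto (fun t : ℕ => (2 * R + Real.logb 2 N) / (t : ℝ) + Real.logb 2 N / R) atTop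
      (nhds (0 + Real.logb 2 N / R)) :=
    (tendsto_const_div_atTop_nhds_zero_nat _).add tendsto_const_nhds
  rw [zero_add] at hlim
  refine le_of_tendsto_of_tendsto (tendsto_cap D) hlim ?_
  filter_upwards [eventually_gt_atTop 0] with t ht
  exact hbound t ht

end Pool.Agent.H693R2.Cap
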